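import Pool.Agent.U466.TP5

set_option autoImplicit false

/-!
# Complete bipartite graphs, and a concrete slowly decaying density
-/

namespace Pool.Agent.U466.TP

open Finset Filter Topology

lemma card_EF_bip (s t : ℕ) : #(EF (completeBipartiteGraph (Fin s) (Fin t))) = s * t := by
  classical
  have h : EF (completeBipartiteGraph (Fin s) (Fin t))
      = (Finset.univ : Finset (Fin s × Fin t)).image
        (fun q => s((Sum.inl q.1 : Fin s ⊕ Fin t), Sum.inr q.2)) := by
    ext e
    rw [mem_EF]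
    simp only [Finset.mem_image, Finset.mem_univ, true_and, Prod.exists]
    induction e using Sym2.ind with
    | _ a b =>
      rw [SimpleGraph.mem_edgeSet, completeBipartiteGraph_adj]
      constructor
      · rintro (⟨ha, hb⟩ | ⟨ha, hb⟩)
        · obtain ⟨x, rfl⟩ := Sum.isLeft_iff.1 ha
          obtain ⟨y, rfl⟩ := Sum.isRight_iff.1 hb
          exact ⟨x, y, rfl⟩
        · obtain ⟨x, rfl⟩ := Sum.isRight_iff.1 ha
          obtain ⟨y, rfl⟩ := Sum.isLeft_iff.1 hb
          exact ⟨y, x, Sym2.eq_swap⟩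
      · rintro ⟨x, y, hxy⟩
        rw [Sym2.eq_iff] at hxy
        rcases hxy with ⟨rfl, rfl⟩ | ⟨rfl, rfl⟩
        · left; simp
        · right; simp
  rw [h, Finset.card_image_of_injective, Finset.card_univ, Fintype.card_prod, Fintype.card_fin,
    Fintype.card_fin]
  intro q r hqr
  simp only [Sym2.eq_iff] at hqr
  rcases hqr with ⟨h1, h2⟩ | ⟨h1, h2⟩
  · exact Prod.ext (Sum.inl_injective h1) (Sum.inr_injective h2)
  · exact absurd h1 (by simp)

/-- The density `1 / (1 + log (n + 1))`. -/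
noncomputable def qq (n : ℕ) : ℝ := 1 / (1 + Real.log (n + 1))

lemma log_nn (n : ℕ) : 0 ≤ Real.log ((n : ℝ) + 1) :=
  Real.log_nonneg (by
    have : (0 : ℝ) ≤ n := Nat.cast_nonneg n
    linarith)

lemma qq_pos (n : ℕ) : 0 < qq n := by
  have := log_nn n
  unfold qq
  positivity

lemma qq_le (n : ℕ) : qq n ≤ 1 := by
  have := log_nn n
  unfold qq
  rw [div_le_one (by positivity)]
  linarith

lemma qq_tendsto : Tendsto qq atTop (𝓝 0) := by
  have h1 : Tendsto (fun n : ℕ => 1 + Real.log ((n : ℝ) + 1)) atTop atTop := by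
    apply tendsto_atTop_add_const_left
    apply Real.tendsto_log_atTop.comp
    exact tendsto_atTop_add_const_right _ _ tendsto_natCast_atTop_atTop
  have : qq = fun n : ℕ => (1 + Real.log ((n : ℝ) + 1))⁻¹ := by
    funext n
    simp [qq]
  rw [this]
  exact h1.inv_tendsto_atTop

lemma qq_ge (n : ℕ) (hn : 3 ≤ n) : 1 / (3 * Real.log n) ≤ qq n := by
  have hn' : (3 : ℝ) ≤ n := by exact_mod_cast hn
  have hlog1 : 1 ≤ Real.log n := by
    rw [Real.le_log_iff_exp_le (by linarith)]
    have := Real.exp_one_lt_d9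
    linarith
  have h2 : Real.log ((n : ℝ) + 1) ≤ 2 * Real.log n := by
    have : Real.log ((n : ℝ) + 1) ≤ Real.log ((n : ℝ) ^ 2) := by
      apply Real.log_le_log (by linarith)
      nlinarith
    rw [Real.log_pow] at this
    exact_mod_cast this
  have h3 := log_nn n
  unfold qq
  apply one_div_le_one_div_of_le
  · linarith
  · linarith

/-- Powers of `n` beat powers of logarithms. -/
lemma pow_beats_log (b c : ℝ) (hb : 0 < b) :
    Tendsto (fun n : ℕ => (n : ℝ) ^ b / Real.log n ^ c) atTop atTop := by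
  have h := (isLittleO_log_rpow_rpow_atTop c hb).tendsto_div_nhds_zero
  have h1 : Tendsto (fun n : ℕ => Real.log (n : ℝ) ^ c / (n : ℝ) ^ b) atTop (𝓝 0) :=
    h.comp tendsto_natCast_atTop_atTop
  have h2 : Tendsto (fun n : ℕ => Real.log (n : ℝ) ^ c / (n : ℝ) ^ b) atTop (𝓝[>] 0) := by
    refine tendsto_nhdsWithin_iff.2 ⟨h1, ?_⟩
    filter_upwards [eventually_ge_atTop 3] with n hn
    have hn' : (3 : ℝ) ≤ n := by exact_mod_cast hn
    have hlog : 0 < Real.log n := Real.log_pos (by linarith)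
    have : (0 : ℝ) < n := by linarith
    exact div_pos (Real.rpow_pos_of_pos hlog _) (Real.rpow_pos_of_pos this _)
  have h3 := h2.inv_tendsto_nhdsGT_zero
  refine h3.congr ?_
  intro n
  simp

lemma qq_cube : Tendsto (fun n : ℕ => (n : ℝ) * qq n ^ 3) atTop atTop := by
  have h := (pow_beats_log 1 3 one_pos).const_mul_atTop (show (0 : ℝ) < 1 / 27 by norm_num)
  apply tendsto_atTop_mono' _ _ h
  filter_upwards [eventually_ge_atTop 3] with n hn
  have hn' : (3 : ℝ) ≤ n := by exact_mod_cast hn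
  have hlog : 0 < Real.log n := Real.log_pos (by linarith)
  have h1 := qq_ge n hn
  have h2 : (1 / (3 * Real.log n)) ^ 3 ≤ qq n ^ 3 := pow_le_pow_left₀ (by positivity) h1 3
  calc 1 / 27 * ((n : ℝ) ^ (1 : ℝ) / Real.log n ^ (3 : ℝ))
      = n * (1 / (3 * Real.log n)) ^ 3 := by
        rw [Real.rpow_one]
        have : Real.log n ^ (3 : ℝ) = Real.log n ^ 3 := by
          rw [← Real.rpow_natCast]
          norm_num
        rw [this]
        field_simp
        norm_num
    _ ≤ n * qq n ^ 3 := mul_le_mul_of_nonneg_left h2 (by linarith)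

lemma qq_omega (s : ℕ) (hs : 2 ≤ s) (a : ℝ) :
    Tendsto (fun n : ℕ => qq n / ((Real.log n) ^ a * (n : ℝ) ^ (-(1 / (s : ℝ))))) atTop atTop := by
  have hs' : (0 : ℝ) < 1 / (s : ℝ) := by
    have : (0 : ℝ) < s := by
      have : 0 < s := by omega
      exact_mod_cast this
    positivity
  have h := (pow_beats_log (1 / (s : ℝ)) (a + 1) hs').const_mul_atTop
    (show (0 : ℝ) < 1 / 3 by norm_num)
  apply tendsto_atTop_mono' _ _ h
  filter_upwards [eventually_ge_atTop 3] with n hn
  have hn' : (3 : ℝ) ≤ n := by exact_mod_cast hn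
  have hn0 : (0 : ℝ) < n := by linarith
  have hlog : 0 < Real.log n := Real.log_pos (by linarith)
  have h1 := qq_ge n hn
  have hA : 0 < Real.log n ^ a := Real.rpow_pos_of_pos hlog _
  have hB : 0 < (n : ℝ) ^ (1 / (s : ℝ)) := Real.rpow_pos_of_pos hn0 _
  rw [Real.rpow_add_one hlog.ne', Real.rpow_neg hn0.le]
  have h2 : 1 / 3 * ((n : ℝ) ^ (1 / (s : ℝ)) / (Real.log n ^ a * Real.log n))
      = (1 / (3 * Real.log n)) / (Real.log n ^ a * ((n : ℝ) ^ (1 / (s : ℝ)))⁻¹) := by
    field_simp
  rw [h2]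
  apply div_le_div_of_nonneg_right h1
  positivity

end Pool.Agent.U466.TP
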