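import Mathlib

set_option autoImplicit false

/-!
# Sign kernels

For a sign vector `σ` on a finite vertex set and a pair `e = {a, b}` put `chi σ e = σ a * σ b`.
We compute the averages over all `σ` of the products `∏ e ∈ S, (1 - ε * chi σ e)`.
-/

namespace Pool.Agent.U466.TP

open Finset

/-- The sign of a Boolean. -/
def sg (b : Bool) : ℝ := if b then -1 else 1

lemma sg_sq (b : Bool) : sg b * sg b = 1 := by cases b <;> simp [sg]

lemma sg_cases (b : Bool) : sg b = 1 ∨ sg b = -1 := by cases b <;> simp [sg]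

/-- Product of the two signs at the ends of a pair. -/
def chi {V : Type} (σ : V → Bool) (e : Sym2 V) : ℝ :=
  Sym2.lift ⟨fun a b => sg (σ a) * sg (σ b), fun _ _ => mul_comm _ _⟩ e

lemma chi_mk {V : Type} (σ : V → Bool) (a b : V) : chi σ s(a, b) = sg (σ a) * sg (σ b) := rfl

lemma chi_cases {V : Type} (σ : V → Bool) (e : Sym2 V) : chi σ e = 1 ∨ chi σ e = -1 := by
  induction e using Sym2.ind with
  | _ a b =>
    rw [chi_mk]
    rcases sg_cases (σ a) with h | h <;> rcases sg_cases (σ b) with h' | h' <;> simp [h, h']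

lemma chi_sq {V : Type} (σ : V → Bool) (e : Sym2 V) : chi σ e * chi σ e = 1 := by
  rcases chi_cases σ e with h | h <;> simp [h]

variable {V : Type} [Fintype V] [DecidableEq V]

/-- Average of `∏ e ∈ S, chi σ e` over all sign vectors. -/
noncomputable def cc (S : Finset (Sym2 V)) : ℝ :=
  (∑ σ : V → Bool, ∏ e ∈ S, chi σ e) / 2 ^ (Fintype.card V)

/-- Average of `∏ e ∈ S, (1 - ε * chi σ e)` over all sign vectors. -/
noncomputable def mu (ε : ℝ) (S : Finset (Sym2 V)) : ℝ :=
  (∑ σ : V → Bool, ∏ e ∈ S, (1 - ε * chi σ e)) / 2 ^ (Fintype.card V)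

lemma mu_expand (ε : ℝ) (S : Finset (Sym2 V)) :
    mu ε S = ∑ S' ∈ S.powerset, (-ε) ^ #S' * cc S' := by
  unfold mu cc
  have h : ∀ σ : V → Bool, ∏ e ∈ S, (1 - ε * chi σ e)
      = ∑ S' ∈ S.powerset, (-ε) ^ #S' * ∏ e ∈ S', chi σ e := by
    intro σ
    have h1 : ∏ e ∈ S, (1 - ε * chi σ e) = ∏ e ∈ S, (1 + (-ε) * chi σ e) := by
      apply Finset.prod_congr rfl
      intro e _
      ring
    rw [h1, Finset.prod_one_add]
    apply Finset.sum_congr rfl
    intro S' _
    rw [Finset.prod_mul_distrib, Finset.prod_const]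
  simp_rw [h]
  rw [Finset.sum_comm, Finset.sum_div]
  apply Finset.sum_congr rfl
  intro S' _
  rw [← Finset.mul_sum, mul_div_assoc]

lemma chi_eq_prod (σ : V → Bool) (e : Sym2 V) (he : ¬ e.IsDiag) :
    chi σ e = ∏ v, (if v ∈ e then sg (σ v) else 1) := by
  induction e using Sym2.ind with
  | _ a b =>
    rw [Sym2.mk_isDiag_iff] at he
    rw [chi_mk, Finset.prod_ite, Finset.prod_const_one, mul_one]
    have h : (Finset.univ.filter fun v => v ∈ s(a, b)) = {a, b} := by
      ext v
      simp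
    rw [h, Finset.prod_pair he]

lemma prod_chi (σ : V → Bool) (S : Finset (Sym2 V)) (hS : ∀ e ∈ S, ¬ e.IsDiag) :
    ∏ e ∈ S, chi σ e = ∏ v, sg (σ v) ^ #{e ∈ S | v ∈ e} := by
  rw [Finset.prod_congr rfl (fun e he => chi_eq_prod σ e (hS e he)), Finset.prod_comm]
  apply Finset.prod_congr rfl
  intro v _
  rw [Finset.prod_ite, Finset.prod_const_one, mul_one, Finset.prod_const]

lemma cc_eq (S : Finset (Sym2 V)) (hS : ∀ e ∈ S, ¬ e.IsDiag) :
    cc S = ∏ v : V, ((1 + (-1 : ℝ) ^ #{e ∈ S | v ∈ e}) / 2) := by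
  unfold cc
  have h : ∑ σ : V → Bool, ∏ e ∈ S, chi σ e
      = ∏ v : V, ∑ b : Bool, sg b ^ #{e ∈ S | v ∈ e} := by
    rw [Finset.prod_univ_sum]
    simp only [Fintype.piFinset_univ]
    exact Finset.sum_congr rfl (fun σ _ => prod_chi σ S hS)
  rw [h, Finset.prod_div_distrib, Finset.prod_const, Finset.card_univ]
  congr 1
  apply Finset.prod_congr rfl
  intro v _
  simp [sg, add_comm]

lemma cc_nonneg (S : Finset (Sym2 V)) (hS : ∀ e ∈ S, ¬ e.IsDiag) : 0 ≤ cc S := by
  rw [cc_eq S hS]
  apply Finset.prod_nonneg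
  intro v _
  rcases neg_one_pow_eq_or ℝ #{e ∈ S | v ∈ e} with h | h <;> simp [h]

lemma cc_le_one (S : Finset (Sym2 V)) (hS : ∀ e ∈ S, ¬ e.IsDiag) : cc S ≤ 1 := by
  rw [cc_eq S hS]
  apply Finset.prod_le_one
  · intro v _
    rcases neg_one_pow_eq_or ℝ #{e ∈ S | v ∈ e} with h | h <;> simp [h]
  · intro v _
    rcases neg_one_pow_eq_or ℝ #{e ∈ S | v ∈ e} with h | h <;> norm_num [h]

lemma cc_eq_zero (S : Finset (Sym2 V)) (hS : ∀ e ∈ S, ¬ e.IsDiag) (v : V)
    (hv : Odd #{e ∈ S | v ∈ e}) : cc S = 0 := by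
  rw [cc_eq S hS]
  apply Finset.prod_eq_zero (Finset.mem_univ v)
  rw [hv.neg_one_pow]
  norm_num

lemma cc_empty : cc (∅ : Finset (Sym2 V)) = 1 := by
  rw [cc_eq ∅ (by simp)]
  simp

lemma cc_singleton (e : Sym2 V) (he : ¬ e.IsDiag) : cc {e} = 0 := by
  induction e using Sym2.ind with
  | _ a b =>
    apply cc_eq_zero _ (by simpa using he) a
    have : #{e ∈ ({s(a, b)} : Finset (Sym2 V)) | a ∈ e} = 1 := by
      rw [Finset.filter_singleton]
      simp
    rw [this]
    exact odd_one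

lemma cc_pair (e f : Sym2 V) (he : ¬ e.IsDiag) (hf : ¬ f.IsDiag) (hef : e ≠ f) :
    cc {e, f} = 0 := by
  -- a vertex of `e` that is not in `f`
  obtain ⟨v, hv, hv'⟩ : ∃ v, v ∈ e ∧ v ∉ f := by
    by_contra hcon
    push Not at hcon
    apply hef
    induction e using Sym2.ind with
    | _ a b =>
      rw [Sym2.mk_isDiag_iff] at he
      have h1 := hcon a (Sym2.mem_mk_left a b)
      have h2 := hcon b (Sym2.mem_mk_right a b)
      exact ((Sym2.mem_and_mem_iff he).1 ⟨h1, h2⟩).symm
  apply cc_eq_zero _ (by simp [he, hf]) v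
  have : #{g ∈ ({e, f} : Finset (Sym2 V)) | v ∈ g} = 1 := by
    rw [Finset.filter_insert, if_pos hv, Finset.filter_singleton, if_neg hv']
    simp
  rw [this]
  exact odd_one

lemma cc_card_one (S : Finset (Sym2 V)) (hS : ∀ e ∈ S, ¬ e.IsDiag) (h : #S = 1) : cc S = 0 := by
  obtain ⟨e, rfl⟩ := Finset.card_eq_one.1 h
  exact cc_singleton e (hS e (by simp))

lemma cc_card_two (S : Finset (Sym2 V)) (hS : ∀ e ∈ S, ¬ e.IsDiag) (h : #S = 2) : cc S = 0 := by
  obtain ⟨e, f, hef, rfl⟩ := Finset.card_eq_two.1 h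
  exact cc_pair e f (hS e (by simp)) (hS f (by simp)) hef

lemma mu_of_card_le_two (ε : ℝ) (S : Finset (Sym2 V)) (hS : ∀ e ∈ S, ¬ e.IsDiag) (h : #S ≤ 2) :
    mu ε S = 1 := by
  rw [mu_expand, Finset.sum_eq_single ∅]
  · simp [cc_empty]
  · intro S' hS' hne
    have hsub := Finset.mem_powerset.1 hS'
    have hd : ∀ e ∈ S', ¬ e.IsDiag := fun e he => hS e (hsub he)
    have hc := Finset.card_le_card hsub
    have hpos := Finset.card_pos.2 (Finset.nonempty_iff_ne_empty.2 hne)
    have : #S' = 1 ∨ #S' = 2 := by omega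
    rcases this with h1 | h1
    · rw [cc_card_one S' hd h1, mul_zero]
    · rw [cc_card_two S' hd h1, mul_zero]
  · intro hh
    exact absurd (Finset.empty_mem_powerset S) hh

lemma mu_le (ε : ℝ) (h0 : 0 ≤ ε) (h1 : ε ≤ 1) (S : Finset (Sym2 V)) (hS : ∀ e ∈ S, ¬ e.IsDiag) :
    mu ε S ≤ 1 + 2 ^ #S * ε ^ 4 := by
  rw [mu_expand]
  have hterm : ∀ S' ∈ S.powerset, (-ε) ^ #S' * cc S' ≤ (if S' = ∅ then 1 else 0) + ε ^ 4 := by
    intro S' hS'
    have hsub := Finset.mem_powerset.1 hS'
    have hd : ∀ e ∈ S', ¬ e.IsDiag := fun e he => hS e (hsub he)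
    have he4 : 0 ≤ ε ^ 4 := by positivity
    by_cases hemp : S' = ∅
    · subst hemp
      simp [cc_empty, he4]
    · rw [if_neg hemp, zero_add]
      have hpos := Finset.card_pos.2 (Finset.nonempty_iff_ne_empty.2 hemp)
      rcases Nat.lt_or_ge #S' 4 with hlt | hge
      · have : #S' = 1 ∨ #S' = 2 ∨ #S' = 3 := by omega
        rcases this with h | h | h
        · rw [cc_card_one S' hd h, mul_zero]; exact he4
        · rw [cc_card_two S' hd h, mul_zero]; exact he4
        · rw [h]
          have := cc_nonneg S' hd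
          have h3 : (-ε) ^ 3 = - ε ^ 3 := by ring
          rw [h3]
          have : 0 ≤ ε ^ 3 * cc S' := by positivity
          linarith
      · have hc0 := cc_nonneg S' hd
        have hc1 := cc_le_one S' hd
        have hp : |(-ε) ^ #S'| = ε ^ #S' := by
          rw [abs_pow, abs_neg, abs_of_nonneg h0]
        calc (-ε) ^ #S' * cc S' ≤ |(-ε) ^ #S' * cc S'| := le_abs_self _
          _ = ε ^ #S' * cc S' := by rw [abs_mul, hp, abs_of_nonneg hc0]
          _ ≤ ε ^ #S' * 1 := by gcongr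
          _ ≤ ε ^ 4 := by
            rw [mul_one]
            exact pow_le_pow_of_le_one h0 h1 hge
  calc ∑ S' ∈ S.powerset, (-ε) ^ #S' * cc S'
      ≤ ∑ S' ∈ S.powerset, ((if S' = ∅ then (1 : ℝ) else 0) + ε ^ 4) := Finset.sum_le_sum hterm
    _ = 1 + 2 ^ #S * ε ^ 4 := by
      rw [Finset.sum_add_distrib, Finset.sum_ite_eq' S.powerset ∅ (fun _ => (1 : ℝ)),
        if_pos (Finset.empty_mem_powerset S), Finset.sum_const, Finset.card_powerset, nsmul_eq_mul]
      push_cast
      ring

lemma mu_nonneg (ε : ℝ) (h0 : 0 ≤ ε) (h1 : ε ≤ 1) (S : Finset (Sym2 V)) : 0 ≤ mu ε S := by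
  unfold mu
  apply div_nonneg _ (by positivity)
  apply Finset.sum_nonneg
  intro σ _
  apply Finset.prod_nonneg
  intro e _
  rcases chi_cases σ e with h | h <;> rw [h] <;> linarith

/-- The average over a triangle. -/
lemma mu_triangle (ε : ℝ) (a b c : V) (hab : a ≠ b) (hbc : b ≠ c) (hac : a ≠ c) :
    mu ε {s(a, b), s(b, c), s(c, a)} = 1 - ε ^ 3 := by
  have hS : ∀ e ∈ ({s(a, b), s(b, c), s(c, a)} : Finset (Sym2 V)), ¬ e.IsDiag := by
    simp [hab, hbc, hac.symm]
  have n1 : s(a, b) ≠ s(b, c) := by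
    intro h
    rw [Sym2.eq_iff] at h
    tauto
  have n2 : s(a, b) ≠ s(c, a) := by
    intro h
    rw [Sym2.eq_iff] at h
    rcases h with h | h
    · exact hac h.1
    · exact hbc h.2
  have n3 : s(b, c) ≠ s(c, a) := by
    intro h
    rw [Sym2.eq_iff] at h
    rcases h with h | h
    · exact hbc h.1
    · exact hab h.1.symm
  have hcard : #({s(a, b), s(b, c), s(c, a)} : Finset (Sym2 V)) = 3 := by
    rw [Finset.card_eq_three]
    exact ⟨_, _, _, n1, n2, n3, rfl⟩
  have hcc : cc ({s(a, b), s(b, c), s(c, a)} : Finset (Sym2 V)) = 1 := by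
    unfold cc
    have : ∀ σ : V → Bool, ∏ e ∈ ({s(a, b), s(b, c), s(c, a)} : Finset (Sym2 V)), chi σ e = 1 := by
      intro σ
      rw [Finset.prod_insert (by simp [n1, n2]), Finset.prod_insert (by simp [n3]),
        Finset.prod_singleton, chi_mk, chi_mk, chi_mk]
      have h1 := sg_sq (σ a)
      have h2 := sg_sq (σ b)
      have h3 := sg_sq (σ c)
      calc sg (σ a) * sg (σ b) * (sg (σ b) * sg (σ c) * (sg (σ c) * sg (σ a)))
          = (sg (σ a) * sg (σ a)) * (sg (σ b) * sg (σ b)) * (sg (σ c) * sg (σ c)) := by ring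
        _ = 1 := by rw [h1, h2, h3]; norm_num
    simp [this]
  rw [mu_expand]
  set S : Finset (Sym2 V) := {s(a, b), s(b, c), s(c, a)} with hSdef
  have hne : S ≠ ∅ := by
    rw [← Finset.card_pos.trans Finset.nonempty_iff_ne_empty]
    omega
  have hval : ∀ S' ∈ S.powerset, (-ε) ^ #S' * cc S'
      = (if S' = ∅ then (1 : ℝ) else 0) + (if S' = S then - ε ^ 3 else 0) := by
    intro S' hS'
    have hsub := Finset.mem_powerset.1 hS'
    have hd : ∀ e ∈ S', ¬ e.IsDiag := fun e he => hS e (hsub he)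
    by_cases hemp : S' = ∅
    · subst hemp
      rw [if_neg hne.symm]
      simp [cc_empty]
    · by_cases hfull : S' = S
      · rw [hfull, if_neg hne, if_pos rfl, hcc, hcard]
        ring
      · rw [if_neg hemp, if_neg hfull, add_zero]
        have hpos := Finset.card_pos.2 (Finset.nonempty_iff_ne_empty.2 hemp)
        have hlt := Finset.card_lt_card (Finset.ssubset_iff_subset_ne.2 ⟨hsub, hfull⟩)
        have : #S' = 1 ∨ #S' = 2 := by omega
        rcases this with h | h
        · rw [cc_card_one S' hd h, mul_zero]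
        · rw [cc_card_two S' hd h, mul_zero]
  rw [Finset.sum_congr rfl hval, Finset.sum_add_distrib,
    Finset.sum_ite_eq' S.powerset ∅ (fun _ => (1 : ℝ)),
    if_pos (Finset.empty_mem_powerset S),
    Finset.sum_ite_eq' S.powerset S (fun _ => (- ε ^ 3 : ℝ)), if_pos (Finset.mem_powerset_self S)]
  ring

/-- The average over a four-cycle. -/
lemma mu_square (ε : ℝ) (a b c d : V) (hab : a ≠ b) (hac : a ≠ c) (had : a ≠ d) (hbc : b ≠ c)
    (hbd : b ≠ d) (hcd : c ≠ d) :
    mu ε {s(a, b), s(b, c), s(c, d), s(d, a)} = 1 + ε ^ 4 := by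
  have hS : ∀ e ∈ ({s(a, b), s(b, c), s(c, d), s(d, a)} : Finset (Sym2 V)), ¬ e.IsDiag := by
    simp [hab, hbc, hcd, had.symm]
  have n1 : s(a, b) ∉ ({s(b, c), s(c, d), s(d, a)} : Finset (Sym2 V)) := by
    simp only [Finset.mem_insert, Finset.mem_singleton, Sym2.eq_iff]
    tauto
  have n2 : s(b, c) ∉ ({s(c, d), s(d, a)} : Finset (Sym2 V)) := by
    simp only [Finset.mem_insert, Finset.mem_singleton, Sym2.eq_iff]
    tauto
  have n3 : s(c, d) ∉ ({s(d, a)} : Finset (Sym2 V)) := by
    simp only [Finset.mem_singleton, Sym2.eq_iff]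
    tauto
  have hcard : #({s(a, b), s(b, c), s(c, d), s(d, a)} : Finset (Sym2 V)) = 4 := by
    rw [Finset.card_insert_of_notMem n1, Finset.card_insert_of_notMem n2,
      Finset.card_insert_of_notMem n3, Finset.card_singleton]
  have hprod : ∀ σ : V → Bool,
      ∏ e ∈ ({s(a, b), s(b, c), s(c, d), s(d, a)} : Finset (Sym2 V)), chi σ e = 1 := by
    intro σ
    rw [Finset.prod_insert n1, Finset.prod_insert n2, Finset.prod_insert n3,
      Finset.prod_singleton, chi_mk, chi_mk, chi_mk, chi_mk]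
    have h1 := sg_sq (σ a)
    have h2 := sg_sq (σ b)
    have h3 := sg_sq (σ c)
    have h4 := sg_sq (σ d)
    calc sg (σ a) * sg (σ b) * (sg (σ b) * sg (σ c) * (sg (σ c) * sg (σ d) * (sg (σ d) * sg (σ a))))
        = (sg (σ a) * sg (σ a)) * (sg (σ b) * sg (σ b)) * (sg (σ c) * sg (σ c))
          * (sg (σ d) * sg (σ d)) := by ring
      _ = 1 := by rw [h1, h2, h3, h4]; norm_num
  rw [mu_expand]
  set S : Finset (Sym2 V) := {s(a, b), s(b, c), s(c, d), s(d, a)} with hSdef
  have hcc : cc S = 1 := by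
    unfold cc
    simp [hprod]
  have hne : S ≠ ∅ := by
    rw [← Finset.card_pos.trans Finset.nonempty_iff_ne_empty]
    omega
  have hval : ∀ S' ∈ S.powerset, (-ε) ^ #S' * cc S'
      = (if S' = ∅ then (1 : ℝ) else 0) + (if S' = S then ε ^ 4 else 0) := by
    intro S' hS'
    have hsub := Finset.mem_powerset.1 hS'
    have hd : ∀ e ∈ S', ¬ e.IsDiag := fun e he => hS e (hsub he)
    by_cases hemp : S' = ∅
    · subst hemp
      rw [if_neg hne.symm]
      simp [cc_empty]
    · by_cases hfull : S' = S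
      · rw [hfull, if_neg hne, if_pos rfl, hcc, hcard]
        ring
      · rw [if_neg hemp, if_neg hfull, add_zero]
        have hpos := Finset.card_pos.2 (Finset.nonempty_iff_ne_empty.2 hemp)
        have hlt := Finset.card_lt_card (Finset.ssubset_iff_subset_ne.2 ⟨hsub, hfull⟩)
        have : #S' = 1 ∨ #S' = 2 ∨ #S' = 3 := by omega
        rcases this with h | h | h
        · rw [cc_card_one S' hd h, mul_zero]
        · rw [cc_card_two S' hd h, mul_zero]
        · -- `S' = S \ {e}` and the product over `S` is one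
          have hsd : #(S \ S') = 1 := by
            rw [Finset.card_sdiff_of_subset hsub]
            omega
          obtain ⟨e, he⟩ := Finset.card_eq_one.1 hsd
          have heS : e ∈ S := by
            have : e ∈ S \ S' := by rw [he]; simp
            exact (Finset.mem_sdiff.1 this).1
          have : cc S' = cc {e} := by
            unfold cc
            congr 1
            apply Finset.sum_congr rfl
            intro σ _
            have h1 := hprod σ
            rw [← Finset.prod_sdiff hsub, he, Finset.prod_singleton] at h1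
            rw [Finset.prod_singleton]
            have h2 := chi_sq σ e
            calc ∏ e ∈ S', chi σ e = (chi σ e * chi σ e) * ∏ e ∈ S', chi σ e := by rw [h2, one_mul]
              _ = chi σ e * (chi σ e * ∏ e ∈ S', chi σ e) := by ring
              _ = chi σ e := by rw [h1, mul_one]
          rw [this, cc_singleton e (hS e heS), mul_zero]
  rw [Finset.sum_congr rfl hval, Finset.sum_add_distrib,
    Finset.sum_ite_eq' S.powerset ∅ (fun _ => (1 : ℝ)),
    if_pos (Finset.empty_mem_powerset S),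
    Finset.sum_ite_eq' S.powerset S (fun _ => (ε ^ 4 : ℝ)), if_pos (Finset.mem_powerset_self S)]

end Pool.Agent.U466.TP
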