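import Pool.Agent.U466.TP1

set_option autoImplicit false

/-!
# A random graph with a product kernel

Every vertex gets `m` independent uniform signs, and the pairs `e` become edges independently with
probability `p * ∏ i, (1 - ε * chi (x i) e)`.
-/

namespace Pool.Agent.U466.TP

open Finset

variable {V : Type} [Fintype V] [DecidableEq V]

/-- The kernel `∏ i, (1 - ε * chi (x i) e)`. -/
noncomputable def ww (ε : ℝ) {m : ℕ} (x : Fin m → V → Bool) (e : Sym2 V) : ℝ :=
  ∏ i, (1 - ε * chi (x i) e)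

omit [Fintype V] [DecidableEq V] in
lemma ww_nonneg (ε : ℝ) (h0 : 0 ≤ ε) (h1 : ε ≤ 1) {m : ℕ} (x : Fin m → V → Bool) (e : Sym2 V) :
    0 ≤ ww ε x e := by
  apply Finset.prod_nonneg
  intro i _
  rcases chi_cases (x i) e with h | h <;> rw [h] <;> linarith

omit [Fintype V] [DecidableEq V] in
lemma ww_le (ε : ℝ) (h0 : 0 ≤ ε) (h1 : ε ≤ 1) {m : ℕ} (x : Fin m → V → Bool) (e : Sym2 V) :
    ww ε x e ≤ (1 + ε) ^ m := by
  unfold ww
  calc ∏ i : Fin m, (1 - ε * chi (x i) e) ≤ ∏ _i : Fin m, (1 + ε) := by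
        apply Finset.prod_le_prod
        · intro i _
          rcases chi_cases (x i) e with h | h <;> rw [h] <;> linarith
        · intro i _
          rcases chi_cases (x i) e with h | h <;> rw [h] <;> linarith
    _ = (1 + ε) ^ m := by simp

lemma sum_ww (ε : ℝ) {m : ℕ} (S : Finset (Sym2 V)) :
    (∑ x : Fin m → V → Bool, ∏ e ∈ S, ww ε x e) / (2 ^ (Fintype.card V)) ^ m = mu ε S ^ m := by
  unfold mu ww
  rw [div_pow, Fintype.sum_pow]
  congr 1
  apply Finset.sum_congr rfl
  intro x _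
  rw [Finset.prod_comm]

/-- The pairs of distinct vertices. -/
def E0 (V : Type) [Fintype V] [DecidableEq V] : Finset (Sym2 V) :=
  Finset.univ.filter fun e => ¬ e.IsDiag

lemma mem_E0 {e : Sym2 V} : e ∈ E0 V ↔ ¬ e.IsDiag := by simp [E0]

/-- Weight of the edge set `T` for given signs. -/
noncomputable def PP (p ε : ℝ) {m : ℕ} (x : Fin m → V → Bool) (T : Finset (Sym2 V)) : ℝ :=
  (∏ e ∈ T, (p * ww ε x e)) * ∏ e ∈ E0 V \ T, (1 - p * ww ε x e)

lemma sum_PP (p ε : ℝ) {m : ℕ} (x : Fin m → V → Bool) (S : Finset (Sym2 V)) (hS : S ⊆ E0 V) :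
    ∑ T ∈ (E0 V).powerset, PP p ε x T * (if S ⊆ T then 1 else 0)
      = ∏ e ∈ S, (p * ww ε x e) := by
  have h := Finset.prod_add (fun e => p * ww ε x e)
    (fun e => if e ∈ S then 0 else 1 - p * ww ε x e) (E0 V)
  have hL : ∏ e ∈ E0 V, (p * ww ε x e + if e ∈ S then 0 else 1 - p * ww ε x e)
      = ∏ e ∈ S, (p * ww ε x e) := by
    rw [← Finset.prod_sdiff hS]
    have h1 : ∏ e ∈ E0 V \ S, (p * ww ε x e + if e ∈ S then 0 else 1 - p * ww ε x e) = 1 := by
      apply Finset.prod_eq_one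
      intro e he
      rw [if_neg (Finset.mem_sdiff.1 he).2]
      ring
    rw [h1, one_mul]
    apply Finset.prod_congr rfl
    intro e he
    rw [if_pos he, add_zero]
  rw [← hL, h]
  apply Finset.sum_congr rfl
  intro T hT
  have hTE := Finset.mem_powerset.1 hT
  by_cases hST : S ⊆ T
  · rw [if_pos hST, mul_one]
    unfold PP
    congr 1
    apply Finset.prod_congr rfl
    intro e he
    rw [if_neg]
    intro heS
    exact (Finset.mem_sdiff.1 he).2 (hST heS)
  · rw [if_neg hST, mul_zero]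
    obtain ⟨e, heS, heT⟩ := Finset.not_subset.1 hST
    symm
    apply mul_eq_zero_of_right
    apply Finset.prod_eq_zero (Finset.mem_sdiff.2 ⟨hS heS, heT⟩)
    rw [if_pos heS]

/-- Expectation of a function of the random edge set. -/
noncomputable def Ex (p ε : ℝ) (m : ℕ) (f : Finset (Sym2 V) → ℝ) : ℝ :=
  (∑ x : Fin m → V → Bool, ∑ T ∈ (E0 V).powerset, PP p ε x T * f T)
    / (2 ^ (Fintype.card V)) ^ m

lemma Ex_add (p ε : ℝ) (m : ℕ) (f g : Finset (Sym2 V) → ℝ) :
    Ex p ε m (fun T => f T + g T) = Ex p ε m f + Ex p ε m g := by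
  unfold Ex
  rw [← add_div, ← Finset.sum_add_distrib]
  congr 1
  apply Finset.sum_congr rfl
  intro x _
  rw [← Finset.sum_add_distrib]
  apply Finset.sum_congr rfl
  intro T _
  ring

lemma Ex_mul (p ε : ℝ) (m : ℕ) (c : ℝ) (f : Finset (Sym2 V) → ℝ) :
    Ex p ε m (fun T => c * f T) = c * Ex p ε m f := by
  unfold Ex
  rw [← mul_div_assoc, Finset.mul_sum]
  congr 1
  apply Finset.sum_congr rfl
  intro x _
  rw [Finset.mul_sum]
  apply Finset.sum_congr rfl
  intro T _
  ring

lemma Ex_sum (p ε : ℝ) (m : ℕ) {ι : Type*} (s : Finset ι) (f : ι → Finset (Sym2 V) → ℝ) :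
    Ex p ε m (fun T => ∑ i ∈ s, f i T) = ∑ i ∈ s, Ex p ε m (f i) := by
  classical
  induction s using Finset.induction_on with
  | empty =>
    simp [Ex]
  | insert a s ha ih =>
    rw [Finset.sum_insert ha, ← ih, ← Ex_add]
    congr 1
    funext T
    rw [Finset.sum_insert ha]

lemma Ex_ind (p ε : ℝ) (m : ℕ) (S : Finset (Sym2 V)) (hS : S ⊆ E0 V) :
    Ex p ε m (fun T => if S ⊆ T then 1 else 0) = p ^ #S * mu ε S ^ m := by
  unfold Ex
  simp_rw [sum_PP p ε _ S hS, Finset.prod_mul_distrib, Finset.prod_const]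
  rw [← Finset.mul_sum, mul_div_assoc, sum_ww]

lemma mu_empty (ε : ℝ) : mu ε (∅ : Finset (Sym2 V)) = 1 :=
  mu_of_card_le_two ε ∅ (by simp) (by simp)

lemma Ex_const (p ε : ℝ) (m : ℕ) (c : ℝ) : Ex (V := V) p ε m (fun _ => c) = c := by
  have h := Ex_ind (V := V) p ε m ∅ (Finset.empty_subset _)
  simp only [Finset.empty_subset, if_true, Finset.card_empty, pow_zero, one_mul, mu_empty,
    one_pow] at h
  have h2 := Ex_mul (V := V) p ε m c (fun _ => 1)
  simp only [mul_one] at h2
  rw [h2, h, mul_one]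

lemma PP_nonneg (p ε : ℝ) (hp : 0 ≤ p) (h0 : 0 ≤ ε) (h1 : ε ≤ 1) {m : ℕ}
    (hm : p * (1 + ε) ^ m ≤ 1) (x : Fin m → V → Bool) (T : Finset (Sym2 V)) :
    0 ≤ PP p ε x T := by
  unfold PP
  apply mul_nonneg
  · apply Finset.prod_nonneg
    intro e _
    exact mul_nonneg hp (ww_nonneg ε h0 h1 x e)
  · apply Finset.prod_nonneg
    intro e _
    have : p * ww ε x e ≤ p * (1 + ε) ^ m := mul_le_mul_of_nonneg_left (ww_le ε h0 h1 x e) hp
    linarith

/-- First moment method: some edge set is at most as large as the expectation. -/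
lemma exists_le_Ex (p ε : ℝ) (hp : 0 ≤ p) (h0 : 0 ≤ ε) (h1 : ε ≤ 1) {m : ℕ}
    (hm : p * (1 + ε) ^ m ≤ 1) (f : Finset (Sym2 V) → ℝ) :
    ∃ T ⊆ E0 V, f T ≤ Ex p ε m f := by
  by_contra hcon
  push Not at hcon
  set c : ℝ := Ex p ε m f with hc
  have key : Ex (V := V) p ε m (fun T => f T + (-c)) = 0 := by
    rw [Ex_add, Ex_const, ← hc]
    ring
  unfold Ex at key
  have hpow : (0 : ℝ) < (2 ^ (Fintype.card V)) ^ m := by positivity
  rw [div_eq_zero_iff] at key
  rcases key with key | key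
  · -- all terms are nonnegative and some weight is positive
    have hnn : ∀ x ∈ (Finset.univ : Finset (Fin m → V → Bool)),
        0 ≤ ∑ T ∈ (E0 V).powerset, PP p ε x T * (f T + -c) := by
      intro x _
      apply Finset.sum_nonneg
      intro T hT
      apply mul_nonneg (PP_nonneg p ε hp h0 h1 hm x T)
      have := hcon T (Finset.mem_powerset.1 hT)
      linarith
    have hz := (Finset.sum_eq_zero_iff_of_nonneg hnn).1 key
    have hx := hz (fun _ _ => false) (Finset.mem_univ _)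
    have hnn2 : ∀ T ∈ (E0 V).powerset,
        0 ≤ PP p ε (m := m) (fun _ _ => false) T * (f T + -c) := by
      intro T hT
      apply mul_nonneg (PP_nonneg p ε hp h0 h1 hm _ T)
      have := hcon T (Finset.mem_powerset.1 hT)
      linarith
    have hz2 := (Finset.sum_eq_zero_iff_of_nonneg hnn2).1 hx
    have hsum := sum_PP (V := V) p ε (m := m) (fun _ _ => false) ∅ (Finset.empty_subset _)
    have hall : ∑ T ∈ (E0 V).powerset,
        PP p ε (m := m) (fun _ _ => false) T * (if ∅ ⊆ T then 1 else 0) = 0 := by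
      apply Finset.sum_eq_zero
      intro T hT
      have h3 := hz2 T hT
      have h4 := hcon T (Finset.mem_powerset.1 hT)
      have h5 : PP p ε (m := m) (fun _ _ => false) T = 0 := by
        rcases mul_eq_zero.1 h3 with h | h
        · exact h
        · exfalso
          linarith
      rw [h5, zero_mul]
    rw [hall] at hsum
    simp at hsum
  · exact hpow.ne' key

end Pool.Agent.U466.TP
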