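import Pool.Agent.U466.TP2

set_option autoImplicit false

/-!
# Counting embeddings in the random graph
-/

namespace Pool.Agent.U466.TP

open Finset

/-- Number of injective homomorphisms from `F` to `G`. -/
noncomputable def cnt {W V : Type} (F : SimpleGraph W) (G : SimpleGraph V) : ℝ :=
  (Set.ncard {f : W → V | Function.Injective f ∧ ∀ i j, F.Adj i j → G.Adj (f i) (f j)} : ℝ)

lemma cnt_nonneg {W V : Type} (F : SimpleGraph W) (G : SimpleGraph V) : 0 ≤ cnt F G :=
  Nat.cast_nonneg _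

lemma cnt_eq_sum {W V : Type} [Fintype (W → V)] (F : SimpleGraph W) (G : SimpleGraph V)
    [DecidablePred fun f : W → V =>
      (Function.Injective f ∧ ∀ i j, F.Adj i j → G.Adj (f i) (f j))] :
    cnt F G = ∑ f : W → V,
      if (Function.Injective f ∧ ∀ i j, F.Adj i j → G.Adj (f i) (f j)) then (1 : ℝ) else 0 := by
  unfold cnt
  rw [Set.ncard_eq_toFinset_card', Set.toFinset_ofPred, Finset.sum_boole]

/-- The edges of `F` as a finite set. -/
noncomputable def EF {W : Type} [Fintype W] (F : SimpleGraph W) : Finset (Sym2 W) := by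
  classical exact Finset.univ.filter fun e => e ∈ F.edgeSet

lemma mem_EF {W : Type} [Fintype W] {F : SimpleGraph W} {e : Sym2 W} :
    e ∈ EF F ↔ e ∈ F.edgeSet := by
  classical
  simp [EF]

variable {V : Type} [Fintype V] [DecidableEq V]

/-- The graph with edge set `T`. -/
def gr (T : Finset (Sym2 V)) : SimpleGraph V := SimpleGraph.fromEdgeSet (T : Set (Sym2 V))

omit [Fintype V] in
lemma gr_adj {T : Finset (Sym2 V)} {u v : V} : (gr T).Adj u v ↔ s(u, v) ∈ T ∧ u ≠ v := by
  simp [gr]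

/-- The image of the edge set under a map. -/
noncomputable def im {W : Type} [Fintype W] (F : SimpleGraph W) (f : W → V) : Finset (Sym2 V) :=
  (EF F).image (Sym2.map f)

omit [Fintype V] in
lemma card_im {W : Type} [Fintype W] (F : SimpleGraph W) (f : W → V)
    (hf : Function.Injective f) : #(im F f) = #(EF F) :=
  Finset.card_image_of_injective _ (Sym2.map.injective hf)

lemma im_subset {W : Type} [Fintype W] (F : SimpleGraph W) (f : W → V)
    (hf : Function.Injective f) : im F f ⊆ E0 V := by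
  intro e he
  obtain ⟨e', he', rfl⟩ := Finset.mem_image.1 he
  rw [mem_E0]
  induction e' using Sym2.ind with
  | _ a b =>
    rw [mem_EF, SimpleGraph.mem_edgeSet] at he'
    rw [Sym2.map_mk, Sym2.mk_isDiag_iff]
    intro h
    exact he'.ne (hf h)

omit [Fintype V] in
lemma im_subset_iff {W : Type} [Fintype W] (F : SimpleGraph W) (f : W → V)
    (hf : Function.Injective f) (T : Finset (Sym2 V)) :
    im F f ⊆ T ↔ ∀ i j, F.Adj i j → (gr T).Adj (f i) (f j) := by
  constructor
  · intro h i j hij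
    rw [gr_adj]
    refine ⟨h ?_, fun h' => hij.ne (hf h')⟩
    apply Finset.mem_image.2
    exact ⟨s(i, j), mem_EF.2 hij, by simp⟩
  · intro h e he
    obtain ⟨e', he', rfl⟩ := Finset.mem_image.1 he
    induction e' using Sym2.ind with
    | _ a b =>
      rw [mem_EF, SimpleGraph.mem_edgeSet] at he'
      exact (gr_adj.1 (h a b he')).1

open Classical in
/-- The injective maps. -/
noncomputable def Inj (W V : Type) [Fintype W] [Fintype V] : Finset (W → V) :=
  Finset.univ.filter fun f => Function.Injective f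

lemma mem_Inj {W V : Type} [Fintype W] [Fintype V] {f : W → V} :
    f ∈ Inj W V ↔ Function.Injective f := by
  classical
  simp [Inj]

lemma card_Inj (W V : Type) [Fintype W] [Fintype V] :
    #(Inj W V) = (Fintype.card V).descFactorial (Fintype.card W) := by
  classical
  rw [← Fintype.card_embedding_eq]
  rw [← Fintype.card_coe]
  apply Fintype.card_congr
  exact
    { toFun := fun f => ⟨f.1, mem_Inj.1 f.2⟩
      invFun := fun f => ⟨f, mem_Inj.2 f.injective⟩
      left_inv := fun f => rfl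
      right_inv := fun f => rfl }

lemma cnt_gr {W : Type} [Fintype W] (F : SimpleGraph W) (T : Finset (Sym2 V)) :
    cnt F (gr T) = ∑ f ∈ Inj W V, if im F f ⊆ T then (1 : ℝ) else 0 := by
  classical
  rw [cnt_eq_sum]
  unfold Inj
  rw [Finset.sum_filter]
  apply Finset.sum_congr rfl
  intro f _
  by_cases hf : Function.Injective f
  · simp only [hf, true_and, if_true]
    simp only [im_subset_iff F f hf T]
  · simp [hf]

lemma Ex_cnt (p ε : ℝ) (m : ℕ) {W : Type} [Fintype W] (F : SimpleGraph W) :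
    Ex (V := V) p ε m (fun T => cnt F (gr T))
      = ∑ f ∈ Inj W V, p ^ #(EF F) * mu ε (im F f) ^ m := by
  have h : (fun T : Finset (Sym2 V) => cnt F (gr T))
      = fun T => ∑ f ∈ Inj W V, if im F f ⊆ T then (1 : ℝ) else 0 := by
    funext T
    exact cnt_gr F T
  rw [h, Ex_sum]
  apply Finset.sum_congr rfl
  intro f hf
  rw [Ex_ind p ε m _ (im_subset F f (mem_Inj.1 hf)), card_im F f (mem_Inj.1 hf)]

/-- General upper bound for the expected number of embeddings. -/
lemma Ex_cnt_le (p ε : ℝ) (hp : 0 ≤ p) (h0 : 0 ≤ ε) (h1 : ε ≤ 1) (m : ℕ) {W : Type} [Fintype W]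
    (F : SimpleGraph W) :
    Ex (V := V) p ε m (fun T => cnt F (gr T))
      ≤ ((Fintype.card V).descFactorial (Fintype.card W) : ℝ) * p ^ #(EF F)
        * (1 + 2 ^ #(EF F) * ε ^ 4) ^ m := by
  rw [Ex_cnt]
  calc ∑ f ∈ Inj W V, p ^ #(EF F) * mu ε (im F f) ^ m
      ≤ ∑ f ∈ Inj W V, p ^ #(EF F) * (1 + 2 ^ #(EF F) * ε ^ 4) ^ m := by
        apply Finset.sum_le_sum
        intro f hf
        apply mul_le_mul_of_nonneg_left _ (by positivity)
        apply pow_le_pow_left₀ (mu_nonneg ε h0 h1 _)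
        have := mu_le ε h0 h1 (im F f)
          (fun e he => mem_E0.1 (im_subset F f (mem_Inj.1 hf) he))
        rwa [card_im F f (mem_Inj.1 hf)] at this
    _ = _ := by
        rw [Finset.sum_const, card_Inj, nsmul_eq_mul]
        ring

lemma EF_C3 : EF (SimpleGraph.cycleGraph 3) = {s(0, 1), s(1, 2), s(2, 0)} := by
  ext e
  rw [mem_EF]
  revert e
  decide

lemma EF_C4 : EF (SimpleGraph.cycleGraph 4) = {s(0, 1), s(1, 2), s(2, 3), s(3, 0)} := by
  ext e
  rw [mem_EF]
  revert e
  decide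

lemma EF_K2 : EF (⊤ : SimpleGraph (Fin 2)) = {s(0, 1)} := by
  ext e
  rw [mem_EF]
  revert e
  decide

lemma card_EF_C3 : #(EF (SimpleGraph.cycleGraph 3)) = 3 := by
  rw [EF_C3]
  decide

lemma card_EF_C4 : #(EF (SimpleGraph.cycleGraph 4)) = 4 := by
  rw [EF_C4]
  decide

lemma Ex_C3 (p ε : ℝ) (m : ℕ) :
    Ex (V := V) p ε m (fun T => cnt (SimpleGraph.cycleGraph 3) (gr T))
      = ((Fintype.card V).descFactorial 3 : ℝ) * p ^ 3 * (1 - ε ^ 3) ^ m := by
  rw [Ex_cnt, card_EF_C3]
  have h : ∀ f ∈ Inj (Fin 3) V, p ^ 3 * mu ε (im (SimpleGraph.cycleGraph 3) f) ^ m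
      = p ^ 3 * (1 - ε ^ 3) ^ m := by
    intro f hf
    have hi := mem_Inj.1 hf
    have : im (SimpleGraph.cycleGraph 3) f = {s(f 0, f 1), s(f 1, f 2), s(f 2, f 0)} := by
      unfold im
      rw [EF_C3]
      simp [Finset.image_insert]
    rw [this, mu_triangle ε (f 0) (f 1) (f 2) (hi.ne (by decide)) (hi.ne (by decide))
      (hi.ne (by decide))]
  rw [Finset.sum_congr rfl h, Finset.sum_const, card_Inj, nsmul_eq_mul, Fintype.card_fin]
  ring

lemma Ex_C4 (p ε : ℝ) (m : ℕ) :
    Ex (V := V) p ε m (fun T => cnt (SimpleGraph.cycleGraph 4) (gr T))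
      = ((Fintype.card V).descFactorial 4 : ℝ) * p ^ 4 * (1 + ε ^ 4) ^ m := by
  rw [Ex_cnt, card_EF_C4]
  have h : ∀ f ∈ Inj (Fin 4) V, p ^ 4 * mu ε (im (SimpleGraph.cycleGraph 4) f) ^ m
      = p ^ 4 * (1 + ε ^ 4) ^ m := by
    intro f hf
    have hi := mem_Inj.1 hf
    have : im (SimpleGraph.cycleGraph 4) f
        = {s(f 0, f 1), s(f 1, f 2), s(f 2, f 3), s(f 3, f 0)} := by
      unfold im
      rw [EF_C4]
      simp [Finset.image_insert]
    rw [this, mu_square ε (f 0) (f 1) (f 2) (f 3) (hi.ne (by decide)) (hi.ne (by decide))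
      (hi.ne (by decide)) (hi.ne (by decide)) (hi.ne (by decide)) (hi.ne (by decide))]
  rw [Finset.sum_congr rfl h, Finset.sum_const, card_Inj, nsmul_eq_mul, Fintype.card_fin]
  ring

/-! ### The number of edges -/

lemma card_E0 : #(E0 V) = (Fintype.card V).choose 2 := by
  rw [← Sym2.card_subtype_not_diag, Fintype.card_subtype]
  rfl

omit [Fintype V] in
lemma edgeSet_gr (T : Finset (Sym2 V)) (hT : ∀ e ∈ T, ¬ e.IsDiag) :
    (gr T).edgeSet = (T : Set (Sym2 V)) := by
  unfold gr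
  rw [SimpleGraph.edgeSet_fromEdgeSet]
  ext e
  simp only [Set.mem_sdiff, Finset.mem_coe]
  constructor
  · intro h
    exact h.1
  · intro h
    exact ⟨h, hT e h⟩

lemma cnt_K2 (G : SimpleGraph V) [DecidableRel G.Adj] :
    cnt (⊤ : SimpleGraph (Fin 2)) G = ∑ u, (G.degree u : ℝ) := by
  classical
  rw [cnt_eq_sum]
  have h : ∀ f : Fin 2 → V, (Function.Injective f ∧ ∀ i j,
      (⊤ : SimpleGraph (Fin 2)).Adj i j → G.Adj (f i) (f j)) ↔ G.Adj (f 0) (f 1) := by
    intro f
    constructor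
    · intro h
      exact h.2 0 1 (by simp)
    · intro h
      refine ⟨?_, ?_⟩
      · intro i j hij
        fin_cases i <;> fin_cases j <;> simp at hij ⊢
        · exact h.ne hij
        · exact h.ne hij.symm
      · intro i j hij
        fin_cases i <;> fin_cases j <;> simp at hij ⊢
        · exact h
        · exact h.symm
  simp only [h]
  have h2 : ∑ f : Fin 2 → V, (if G.Adj (f 0) (f 1) then (1 : ℝ) else 0)
      = ∑ q : V × V, if G.Adj q.1 q.2 then (1 : ℝ) else 0 := by
    apply Fintype.sum_equiv (piFinTwoEquiv fun _ => V)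
    intro f
    rfl
  refine Eq.trans ?_ (h2.trans ?_)
  · apply Finset.sum_congr rfl
    intro f _
    congr
  rw [Fintype.sum_prod_type]
  apply Finset.sum_congr rfl
  intro u _
  rw [Finset.sum_boole, SimpleGraph.degree]
  congr 2
  ext v
  simp

lemma cnt_K2_gr (T : Finset (Sym2 V)) (hT : T ⊆ E0 V) :
    cnt (⊤ : SimpleGraph (Fin 2)) (gr T) = 2 * (#T : ℝ) := by
  classical
  rw [cnt_K2, ← Nat.cast_sum, SimpleGraph.sum_degrees_eq_twice_card_edges]
  have h : (gr T).edgeFinset = T := by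
    ext e
    rw [SimpleGraph.mem_edgeFinset, edgeSet_gr T (fun e he => mem_E0.1 (hT he))]
    simp
  rw [h]
  push_cast
  ring

lemma Ex_congr (p ε : ℝ) (m : ℕ) (f g : Finset (Sym2 V) → ℝ) (h : ∀ T ⊆ E0 V, f T = g T) :
    Ex p ε m f = Ex p ε m g := by
  unfold Ex
  congr 1
  apply Finset.sum_congr rfl
  intro x _
  apply Finset.sum_congr rfl
  intro T hT
  rw [h T (Finset.mem_powerset.1 hT)]

lemma card_eq_sum_ind (T : Finset (Sym2 V)) (hT : T ⊆ E0 V) :
    (#T : ℝ) = ∑ e ∈ E0 V, if {e} ⊆ T then (1 : ℝ) else 0 := by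
  rw [Finset.sum_boole]
  congr 2
  ext e
  simp only [Finset.mem_filter, Finset.singleton_subset_iff]
  exact ⟨fun h => ⟨hT h, h⟩, fun h => h.2⟩

lemma Ex_card (p ε : ℝ) (m : ℕ) :
    Ex (V := V) p ε m (fun T => (#T : ℝ)) = #(E0 V) * p := by
  rw [Ex_congr p ε m _ _ card_eq_sum_ind, Ex_sum]
  have : ∀ e ∈ E0 V, Ex (V := V) p ε m (fun T => if {e} ⊆ T then (1 : ℝ) else 0) = p := by
    intro e he
    rw [Ex_ind p ε m {e} (by simpa using he), Finset.card_singleton, pow_one,
      mu_of_card_le_two ε {e} (by simpa [mem_E0] using he) (by simp), one_pow, mul_one]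
  rw [Finset.sum_congr rfl this, Finset.sum_const, nsmul_eq_mul]

lemma Ex_card_sq (p ε : ℝ) (hp : 0 ≤ p) (m : ℕ) :
    Ex (V := V) p ε m (fun T => (#T : ℝ) ^ 2) ≤ #(E0 V) * p + (#(E0 V) * p) ^ 2 := by
  have h1 : ∀ T ⊆ E0 V, (#T : ℝ) ^ 2
      = ∑ e ∈ E0 V, ∑ e' ∈ E0 V, if {e, e'} ⊆ T then (1 : ℝ) else 0 := by
    intro T hT
    rw [card_eq_sum_ind T hT, sq, Finset.sum_mul_sum]
    apply Finset.sum_congr rfl
    intro e _
    apply Finset.sum_congr rfl
    intro e' _
    by_cases h : e ∈ T <;> by_cases h' : e' ∈ T <;> simp [h, h', Finset.insert_subset_iff]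
  rw [Ex_congr p ε m _ _ h1, Ex_sum]
  have h2 : ∀ e ∈ E0 V, Ex (V := V) p ε m
      (fun T => ∑ e' ∈ E0 V, if {e, e'} ⊆ T then (1 : ℝ) else 0)
      ≤ p + #(E0 V) * p ^ 2 := by
    intro e he
    rw [Ex_sum]
    have h3 : ∀ e' ∈ E0 V, Ex (V := V) p ε m (fun T => if {e, e'} ⊆ T then (1 : ℝ) else 0)
        ≤ (if e' = e then p else 0) + p ^ 2 := by
      intro e' he'
      have hsub : ({e, e'} : Finset (Sym2 V)) ⊆ E0 V := by
        intro g hg
        simp only [Finset.mem_insert, Finset.mem_singleton] at hg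
        rcases hg with rfl | rfl <;> assumption
      have hd : ∀ g ∈ ({e, e'} : Finset (Sym2 V)), ¬ g.IsDiag := fun g hg => mem_E0.1 (hsub hg)
      rw [Ex_ind p ε m {e, e'} hsub, mu_of_card_le_two ε {e, e'} hd Finset.card_le_two,
        one_pow, mul_one]
      by_cases hee : e' = e
      · subst hee
        rw [if_pos rfl]
        simp
        positivity
      · rw [if_neg hee, Finset.card_pair (fun h => hee h.symm)]
        simp
    calc ∑ e' ∈ E0 V, Ex (V := V) p ε m (fun T => if {e, e'} ⊆ T then (1 : ℝ) else 0)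
        ≤ ∑ e' ∈ E0 V, ((if e' = e then p else 0) + p ^ 2) := Finset.sum_le_sum h3
      _ = p + #(E0 V) * p ^ 2 := by
        rw [Finset.sum_add_distrib, Finset.sum_ite_eq' (E0 V) e (fun _ => p), if_pos he,
          Finset.sum_const, nsmul_eq_mul]
  calc _ ≤ ∑ e ∈ E0 V, (p + #(E0 V) * p ^ 2) := Finset.sum_le_sum h2
    _ = _ := by
      rw [Finset.sum_const, nsmul_eq_mul]
      ring

end Pool.Agent.U466.TP
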