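import Pool.Agent.U466.TP3

set_option autoImplicit false

/-!
# A lower bound for the number of four-cycles, and the existence of good graphs
-/

namespace Pool.Agent.U466.TP

open Finset

variable {V : Type} [Fintype V] [DecidableEq V]

/-- Four-tuples as functions. -/
def quad (V : Type) : (Fin 4 → V) ≃ V × V × V × V where
  toFun f := (f 0, f 1, f 2, f 3)
  invFun t := ![t.1, t.2.1, t.2.2.1, t.2.2.2]
  left_inv f := by
    funext i
    fin_cases i <;> rfl
  right_inv t := rfl

lemma sum_quad (g : V → V → V → V → ℝ) :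
    ∑ f : Fin 4 → V, g (f 0) (f 1) (f 2) (f 3) = ∑ a, ∑ b, ∑ c, ∑ d, g a b c d := by
  rw [← Fintype.sum_prod_type' (f := fun a b => ∑ c, ∑ d, g a b c d)]
  have h : ∀ q : V × V, ∑ c, ∑ d, g q.1 q.2 c d = ∑ r : V × V, g q.1 q.2 r.1 r.2 := by
    intro q
    rw [Fintype.sum_prod_type]
  simp_rw [h]
  rw [← Fintype.sum_prod_type' (f := fun (q r : V × V) => g q.1 q.2 r.1 r.2)]
  apply Fintype.sum_equiv ((quad V).trans (Equiv.prodAssoc V V (V × V)).symm)
  intro f
  rfl

/-- Adjacency as a real number. -/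
noncomputable def adj (G : SimpleGraph V) (u v : V) : ℝ := by
  classical exact if G.Adj u v then 1 else 0

omit [Fintype V] [DecidableEq V] in
lemma adj_comm (G : SimpleGraph V) (u v : V) : adj G u v = adj G v u := by
  by_cases h : G.Adj u v
  · simp [adj, h, h.symm]
  · have h' : ¬ G.Adj v u := fun h' => h h'.symm
    simp [adj, h, h']

omit [Fintype V] [DecidableEq V] in
lemma adj_sq (G : SimpleGraph V) (u v : V) : adj G u v * adj G u v = adj G u v := by
  unfold adj
  split_ifs <;> simp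

omit [Fintype V] [DecidableEq V] in
lemma adj_nonneg (G : SimpleGraph V) (u v : V) : 0 ≤ adj G u v := by
  unfold adj
  split_ifs <;> simp

omit [Fintype V] [DecidableEq V] in
lemma adj_le_one (G : SimpleGraph V) (u v : V) : adj G u v ≤ 1 := by
  unfold adj
  split_ifs <;> simp

lemma cnt_K2_adj (G : SimpleGraph V) :
    cnt (⊤ : SimpleGraph (Fin 2)) G = ∑ u, ∑ v, adj G u v := by
  classical
  rw [cnt_K2]
  apply Finset.sum_congr rfl
  intro u _
  unfold adj
  rw [Finset.sum_boole, SimpleGraph.degree]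
  congr 2
  ext v
  simp

omit [Fintype V] in
lemma c4_cond (G : SimpleGraph V) (f : Fin 4 → V) :
    (Function.Injective f ∧ ∀ i j, (SimpleGraph.cycleGraph 4).Adj i j → G.Adj (f i) (f j)) ↔
    (f 0 ≠ f 2 ∧ f 1 ≠ f 3 ∧ G.Adj (f 0) (f 1) ∧ G.Adj (f 1) (f 2) ∧ G.Adj (f 2) (f 3) ∧
      G.Adj (f 3) (f 0)) := by
  constructor
  · rintro ⟨hi, h⟩
    exact ⟨hi.ne (by decide), hi.ne (by decide), h 0 1 (by decide), h 1 2 (by decide),
      h 2 3 (by decide), h 3 0 (by decide)⟩
  · rintro ⟨h02, h13, h01, h12, h23, h30⟩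
    constructor
    · intro i j hij
      have e01 := h01.ne
      have e12 := h12.ne
      have e23 := h23.ne
      have e30 := h30.ne
      fin_cases i <;> fin_cases j <;> simp only [Fin.zero_eta, Fin.mk_one, Fin.reduceFinMk] at hij ⊢
      all_goals first
        | rfl
        | exact absurd hij (by assumption)
        | exact absurd hij.symm (by assumption)
    · intro i j hij
      have hcases : ∀ i j : Fin 4, (SimpleGraph.cycleGraph 4).Adj i j →
          (i = 0 ∧ j = 1) ∨ (i = 1 ∧ j = 0) ∨ (i = 1 ∧ j = 2) ∨ (i = 2 ∧ j = 1) ∨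
          (i = 2 ∧ j = 3) ∨ (i = 3 ∧ j = 2) ∨ (i = 3 ∧ j = 0) ∨ (i = 0 ∧ j = 3) := by decide
      rcases hcases i j hij with ⟨rfl, rfl⟩ | ⟨rfl, rfl⟩ | ⟨rfl, rfl⟩ | ⟨rfl, rfl⟩ | ⟨rfl, rfl⟩ |
        ⟨rfl, rfl⟩ | ⟨rfl, rfl⟩ | ⟨rfl, rfl⟩
      · exact h01
      · exact h01.symm
      · exact h12
      · exact h12.symm
      · exact h23
      · exact h23.symm
      · exact h30
      · exact h30.symm

lemma c4_lower (G : SimpleGraph V) :
    (cnt (⊤ : SimpleGraph (Fin 2)) G) ^ 4
      ≤ (Fintype.card V : ℝ) ^ 4 * (cnt (SimpleGraph.cycleGraph 4) G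
        + 2 * (Fintype.card V : ℝ) * cnt (⊤ : SimpleGraph (Fin 2)) G) := by
  classical
  set n : ℝ := (Fintype.card V : ℝ) with hn
  have hn0 : 0 ≤ n := Nat.cast_nonneg _
  set d : V → ℝ := fun u => ∑ v, adj G u v with hd
  have hd0 : ∀ u, 0 ≤ d u := fun u => Finset.sum_nonneg fun v _ => adj_nonneg G u v
  have hdn : ∀ u, d u ≤ n := by
    intro u
    calc d u ≤ ∑ _v : V, (1 : ℝ) := Finset.sum_le_sum fun v _ => adj_le_one G u v
      _ = n := by simp [hn]
  have hK2 : cnt (⊤ : SimpleGraph (Fin 2)) G = ∑ u, d u := cnt_K2_adj G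
  -- the number of closed walks of length four
  set H : ℝ := ∑ a, ∑ b, ∑ c, ∑ e, adj G a b * adj G b c * adj G c e * adj G e a with hH
  have hC4 : H ≤ cnt (SimpleGraph.cycleGraph 4) G + 2 * ∑ u, d u ^ 2 := by
    have h1 : cnt (SimpleGraph.cycleGraph 4) G = ∑ a, ∑ b, ∑ c, ∑ e,
        if (a ≠ c ∧ b ≠ e ∧ G.Adj a b ∧ G.Adj b c ∧ G.Adj c e ∧ G.Adj e a) then (1 : ℝ) else 0 := by
      rw [cnt_eq_sum]
      simp only [c4_cond]
      exact sum_quad (fun a b c e =>
        if (a ≠ c ∧ b ≠ e ∧ G.Adj a b ∧ G.Adj b c ∧ G.Adj c e ∧ G.Adj e a) then (1 : ℝ) else 0)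
    have h2 : ∑ a, ∑ b, ∑ c, ∑ e, (if a = c then adj G a b * adj G a e else 0)
        = ∑ u, d u ^ 2 := by
      apply Finset.sum_congr rfl
      intro a _
      have : ∀ b, ∑ c, ∑ e, (if a = c then adj G a b * adj G a e else 0)
          = adj G a b * d a := by
        intro b
        rw [Finset.sum_comm]
        simp only [Finset.sum_ite_eq, Finset.mem_univ, if_true]
        rw [← Finset.mul_sum]
      rw [Finset.sum_congr rfl (fun b _ => this b), ← Finset.sum_mul, sq]
    have h3 : ∑ a, ∑ b, ∑ c, ∑ e, (if b = e then adj G b a * adj G b c else 0)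
        = ∑ u, d u ^ 2 := by
      rw [Finset.sum_comm]
      apply Finset.sum_congr rfl
      intro b _
      have : ∀ a, ∑ c, ∑ e, (if b = e then adj G b a * adj G b c else 0)
          = adj G b a * d b := by
        intro a
        simp only [Finset.sum_ite_eq, Finset.mem_univ, if_true]
        rw [← Finset.mul_sum]
      rw [Finset.sum_congr rfl (fun a _ => this a), ← Finset.sum_mul, sq]
    have h4 : ∀ a b c e : V, adj G a b * adj G b c * adj G c e * adj G e a
        ≤ (if (a ≠ c ∧ b ≠ e ∧ G.Adj a b ∧ G.Adj b c ∧ G.Adj c e ∧ G.Adj e a) then (1 : ℝ) else 0)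
        + (if a = c then adj G a b * adj G a e else 0)
        + (if b = e then adj G b a * adj G b c else 0) := by
      intro a b c e
      have p1 : 0 ≤ (if a = c then adj G a b * adj G a e else 0) := by
        split_ifs
        · exact mul_nonneg (adj_nonneg G _ _) (adj_nonneg G _ _)
        · exact le_rfl
      have p2 : 0 ≤ (if b = e then adj G b a * adj G b c else 0) := by
        split_ifs
        · exact mul_nonneg (adj_nonneg G _ _) (adj_nonneg G _ _)
        · exact le_rfl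
      have p3 : (0 : ℝ) ≤ (if (a ≠ c ∧ b ≠ e ∧ G.Adj a b ∧ G.Adj b c ∧ G.Adj c e ∧ G.Adj e a)
          then (1 : ℝ) else 0) := by
        split_ifs <;> norm_num
      by_cases hall : G.Adj a b ∧ G.Adj b c ∧ G.Adj c e ∧ G.Adj e a
      · obtain ⟨q1, q2, q3, q4⟩ := hall
        have v1 : adj G a b = 1 := by simp [adj, q1]
        have v2 : adj G b c = 1 := by simp [adj, q2]
        have v3 : adj G c e = 1 := by simp [adj, q3]
        have v4 : adj G e a = 1 := by simp [adj, q4]
        have v1' : adj G b a = 1 := by rw [adj_comm]; exact v1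
        have v4' : adj G a e = 1 := by rw [adj_comm]; exact v4
        have hL : adj G a b * adj G b c * adj G c e * adj G e a = 1 := by
          rw [v1, v2, v3, v4]
          norm_num
        rw [hL]
        by_cases hac : a = c
        · have t2 : (if a = c then adj G a b * adj G a e else 0) = 1 := by
            rw [if_pos hac, v1, v4']
            norm_num
          linarith
        · by_cases hbe : b = e
          · have t3 : (if b = e then adj G b a * adj G b c else 0) = 1 := by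
              rw [if_pos hbe, v1', v2]
              norm_num
            linarith
          · have t1 : (if (a ≠ c ∧ b ≠ e ∧ G.Adj a b ∧ G.Adj b c ∧ G.Adj c e ∧ G.Adj e a)
                then (1 : ℝ) else 0) = 1 := if_pos ⟨hac, hbe, q1, q2, q3, q4⟩
            linarith
      · have : adj G a b * adj G b c * adj G c e * adj G e a = 0 := by
          by_contra hne
          apply hall
          have hz : ∀ u v, ¬ (adj G u v = 0) → G.Adj u v := by
            intro u v huv
            by_contra hcon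
            exact huv (by simp [adj, hcon])
          have hm := hne
          rw [mul_eq_zero, mul_eq_zero, mul_eq_zero, not_or, not_or, not_or] at hm
          exact ⟨hz _ _ hm.1.1.1, hz _ _ hm.1.1.2, hz _ _ hm.1.2, hz _ _ hm.2⟩
        linarith
    calc H ≤ ∑ a, ∑ b, ∑ c, ∑ e,
          ((if (a ≠ c ∧ b ≠ e ∧ G.Adj a b ∧ G.Adj b c ∧ G.Adj c e ∧ G.Adj e a) then (1 : ℝ) else 0)
          + (if a = c then adj G a b * adj G a e else 0)
          + (if b = e then adj G b a * adj G b c else 0)) := by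
          apply Finset.sum_le_sum; intro a _
          apply Finset.sum_le_sum; intro b _
          apply Finset.sum_le_sum; intro c _
          apply Finset.sum_le_sum; intro e _
          exact h4 a b c e
      _ = cnt (SimpleGraph.cycleGraph 4) G + 2 * ∑ u, d u ^ 2 := by
          simp only [Finset.sum_add_distrib]
          rw [← h1, h2, h3]
          ring
  -- Cauchy-Schwarz twice
  set P : V → V → ℝ := fun a c => ∑ b, adj G a b * adj G b c with hP
  have hHP : H = ∑ a, ∑ c, P a c ^ 2 := by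
    rw [hH]
    apply Finset.sum_congr rfl
    intro a _
    rw [Finset.sum_comm]
    apply Finset.sum_congr rfl
    intro c _
    have hPc : P a c = ∑ e, adj G c e * adj G e a := by
      rw [hP]
      apply Finset.sum_congr rfl
      intro e _
      rw [adj_comm G a e, adj_comm G e c]
      ring
    rw [sq]
    nth_rewrite 2 [hPc]
    rw [hP, Finset.sum_mul_sum]
    apply Finset.sum_congr rfl
    intro b _
    apply Finset.sum_congr rfl
    intro e _
    ring
  have hsumP : ∑ a, ∑ c, P a c = ∑ u, d u ^ 2 := by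
    rw [hP]
    have : ∀ a, ∑ c, ∑ b, adj G a b * adj G b c = ∑ b, adj G b a * d b := by
      intro a
      rw [Finset.sum_comm]
      apply Finset.sum_congr rfl
      intro b _
      rw [← Finset.mul_sum, adj_comm G a b]
    rw [Finset.sum_congr rfl (fun a _ => this a), Finset.sum_comm]
    apply Finset.sum_congr rfl
    intro b _
    rw [← Finset.sum_mul, sq]
  have hCS1 : (∑ u, d u ^ 2) ^ 2 ≤ n ^ 2 * H := by
    rw [← hsumP, hHP]
    have h1 : (∑ a, ∑ c, P a c) ^ 2 ≤ n * ∑ a, (∑ c, P a c) ^ 2 := by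
      have := sq_sum_le_card_mul_sum_sq (s := (Finset.univ : Finset V)) (f := fun a => ∑ c, P a c)
      simpa [hn, Finset.card_univ] using this
    have h2 : ∀ a, (∑ c, P a c) ^ 2 ≤ n * ∑ c, P a c ^ 2 := by
      intro a
      have := sq_sum_le_card_mul_sum_sq (s := (Finset.univ : Finset V)) (f := fun c => P a c)
      simpa [hn, Finset.card_univ] using this
    calc (∑ a, ∑ c, P a c) ^ 2 ≤ n * ∑ a, (∑ c, P a c) ^ 2 := h1
      _ ≤ n * ∑ a, (n * ∑ c, P a c ^ 2) := by
          apply mul_le_mul_of_nonneg_left _ hn0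
          exact Finset.sum_le_sum fun a _ => h2 a
      _ = n ^ 2 * ∑ a, ∑ c, P a c ^ 2 := by
          rw [← Finset.mul_sum]
          ring
  have hCS2 : (∑ u, d u) ^ 2 ≤ n * ∑ u, d u ^ 2 := by
    have := sq_sum_le_card_mul_sum_sq (s := (Finset.univ : Finset V)) (f := d)
    simpa [hn, Finset.card_univ] using this
  have hsq : ∑ u, d u ^ 2 ≤ n * ∑ u, d u := by
    rw [Finset.mul_sum]
    apply Finset.sum_le_sum
    intro u _
    rw [sq]
    exact mul_le_mul_of_nonneg_right (hdn u) (hd0 u)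
  have hsum0 : 0 ≤ ∑ u, d u := Finset.sum_nonneg fun u _ => hd0 u
  have hsumsq0 : 0 ≤ ∑ u, d u ^ 2 := Finset.sum_nonneg fun u _ => sq_nonneg _
  rw [hK2]
  calc (∑ u, d u) ^ 4 = ((∑ u, d u) ^ 2) ^ 2 := by ring
    _ ≤ (n * ∑ u, d u ^ 2) ^ 2 := by
        apply pow_le_pow_left₀ (sq_nonneg _) hCS2
    _ = n ^ 2 * (∑ u, d u ^ 2) ^ 2 := by ring
    _ ≤ n ^ 2 * (n ^ 2 * H) := by gcongr
    _ ≤ n ^ 2 * (n ^ 2 * (cnt (SimpleGraph.cycleGraph 4) G + 2 * ∑ u, d u ^ 2)) := by gcongr
    _ ≤ n ^ 2 * (n ^ 2 * (cnt (SimpleGraph.cycleGraph 4) G + 2 * (n * ∑ u, d u))) := by gcongr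
    _ = _ := by ring

/-- **Existence of good graphs.** -/
theorem exists_good (n : ℕ) (hn : 4 ≤ n) (hV : Fintype.card V = n) (p ε : ℝ) (m : ℕ) (hp : 0 < p)
    (h0 : 0 < ε) (h1 : ε < 1) (hm : p * (1 + ε) ^ m ≤ 1)
    (W : ℕ → Type) [∀ j, Fintype (W j)] (F : ∀ j, SimpleGraph (W j)) (J : ℕ) :
    ∃ G : SimpleGraph V,
      (cnt (⊤ : SimpleGraph (Fin 2)) G / (n.descFactorial 2 * p) - 1) ^ 2
        ≤ 5 * (1 / (n.choose 2 * p)) ∧
      |cnt (SimpleGraph.cycleGraph 4) G / (n.descFactorial 4 * p ^ 4)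
          - (4 * (cnt (⊤ : SimpleGraph (Fin 2)) G / (n.descFactorial 2 * p)) - 3)
          + (2 * n / (((n : ℝ) - 2) * (n - 3) * p ^ 3))
            * (cnt (⊤ : SimpleGraph (Fin 2)) G / (n.descFactorial 2 * p))|
        ≤ 5 * (((1 + ε ^ 4) ^ m - 1) + 2 * n / (((n : ℝ) - 2) * (n - 3) * p ^ 3)) ∧
      cnt (SimpleGraph.cycleGraph 3) G / (n.descFactorial 3 * p ^ 3) ≤ 5 * (1 - ε ^ 3) ^ m ∧
      ∀ j < J, cnt (F j) G / (n.descFactorial (Fintype.card (W j)) * p ^ #(EF (F j)))
        ≤ 5 * 2 ^ (j + 1) * (1 + 2 ^ #(EF (F j)) * ε ^ 4) ^ m := by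
  have hn4 : (4 : ℝ) ≤ n := by exact_mod_cast hn
  have hN : (0 : ℝ) < n.choose 2 := by
    exact_mod_cast Nat.choose_pos (by omega)
  have hD2 : (n.descFactorial 2 : ℝ) = n * (n - 1) := by
    rw [Nat.descFactorial_succ, Nat.descFactorial_one, Nat.cast_mul, Nat.cast_sub (by omega)]
    push_cast
    ring
  have hNval : (n.choose 2 : ℝ) = n * (n - 1) / 2 := Nat.cast_choose_two ℝ n
  have hD3 : (n.descFactorial 3 : ℝ) = n * (n - 1) * (n - 2) := by
    rw [Nat.descFactorial_succ, Nat.cast_mul, hD2, Nat.cast_sub (by omega)]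
    push_cast
    ring
  have hD4 : (n.descFactorial 4 : ℝ) = n * (n - 1) * (n - 2) * (n - 3) := by
    rw [Nat.descFactorial_succ, Nat.cast_mul, hD3, Nat.cast_sub (by omega)]
    push_cast
    ring
  have hD2pos : (0 : ℝ) < n.descFactorial 2 := by
    rw [hD2]
    apply mul_pos <;> linarith
  have hD3pos : (0 : ℝ) < n.descFactorial 3 := by
    rw [hD3]
    apply mul_pos
    · apply mul_pos <;> linarith
    · linarith
  have hD4pos : (0 : ℝ) < n.descFactorial 4 := by
    rw [hD4]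
    apply mul_pos
    · apply mul_pos
      · apply mul_pos <;> linarith
      · linarith
    · linarith
  set κ : ℝ := 2 * n / (((n : ℝ) - 2) * (n - 3) * p ^ 3) with hκ
  have hκpos : 0 < κ := by
    rw [hκ]
    apply div_pos
    · linarith
    · apply mul_pos
      · apply mul_pos <;> linarith
      · positivity
  -- the random variables
  set X2 : Finset (Sym2 V) → ℝ :=
    fun T => cnt (⊤ : SimpleGraph (Fin 2)) (gr T) / (n.descFactorial 2 * p) with hX2
  set Y4 : Finset (Sym2 V) → ℝ :=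
    fun T => cnt (SimpleGraph.cycleGraph 4) (gr T) / (n.descFactorial 4 * p ^ 4) with hY4
  set Y3 : Finset (Sym2 V) → ℝ :=
    fun T => cnt (SimpleGraph.cycleGraph 3) (gr T) / (n.descFactorial 3 * p ^ 3) with hY3
  set YF : ℕ → Finset (Sym2 V) → ℝ :=
    fun j T => cnt (F j) (gr T) / (n.descFactorial (Fintype.card (W j)) * p ^ #(EF (F j))) with hYF
  set U1 : Finset (Sym2 V) → ℝ := fun T => (X2 T - 1) ^ 2 with hU1
  set U2 : Finset (Sym2 V) → ℝ := fun T => Y4 T - (4 * X2 T - 3) + κ * X2 T with hU2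
  have hcE0 : (#(E0 V) : ℝ) = n.choose 2 := by rw [card_E0, hV]
  -- expectations
  have hcast : ∀ T ⊆ E0 V, X2 T = (1 / (n.choose 2 * p)) * (#T : ℝ) := by
    intro T hT
    rw [hX2]
    simp only
    rw [cnt_K2_gr T hT, hD2, hNval]
    have : (n : ℝ) * (n - 1) ≠ 0 := by
      rw [← hD2]
      exact hD2pos.ne'
    field_simp
  have EX2 : Ex (V := V) p ε m X2 = 1 := by
    rw [Ex_congr p ε m _ _ hcast, Ex_mul, Ex_card, hcE0]
    field_simp
  have EX2sq : Ex (V := V) p ε m (fun T => X2 T ^ 2) ≤ 1 / (n.choose 2 * p) + 1 := by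
    have hc : ∀ T ⊆ E0 V, X2 T ^ 2 = (1 / (n.choose 2 * p)) ^ 2 * (#T : ℝ) ^ 2 := by
      intro T hT
      rw [hcast T hT]
      ring
    rw [Ex_congr p ε m _ _ hc, Ex_mul]
    calc (1 / (n.choose 2 * p)) ^ 2 * Ex (V := V) p ε m (fun T => (#T : ℝ) ^ 2)
        ≤ (1 / (n.choose 2 * p)) ^ 2 * (#(E0 V) * p + (#(E0 V) * p) ^ 2) := by
          apply mul_le_mul_of_nonneg_left (Ex_card_sq p ε hp.le m) (by positivity)
      _ = 1 / (n.choose 2 * p) + 1 := by
          rw [hcE0]
          field_simp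
  have EU1 : Ex (V := V) p ε m U1 ≤ 1 / (n.choose 2 * p) := by
    have hc : ∀ T ⊆ E0 V, U1 T = X2 T ^ 2 + ((-2) * X2 T + 1) := by
      intro T _
      rw [hU1]
      ring
    rw [Ex_congr p ε m _ _ hc, Ex_add p ε m (fun T => X2 T ^ 2) (fun T => (-2) * X2 T + 1),
      Ex_add p ε m (fun T => (-2) * X2 T) (fun _ => 1), Ex_mul, EX2, Ex_const]
    linarith
  have EY4 : Ex (V := V) p ε m Y4 = (1 + ε ^ 4) ^ m := by
    have hc : ∀ T ⊆ E0 V, Y4 T
        = (1 / (n.descFactorial 4 * p ^ 4)) * cnt (SimpleGraph.cycleGraph 4) (gr T) := by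
      intro T _
      rw [hY4]
      ring
    rw [Ex_congr p ε m _ _ hc, Ex_mul, Ex_C4, hV]
    field_simp
  have EY3 : Ex (V := V) p ε m Y3 = (1 - ε ^ 3) ^ m := by
    have hc : ∀ T ⊆ E0 V, Y3 T
        = (1 / (n.descFactorial 3 * p ^ 3)) * cnt (SimpleGraph.cycleGraph 3) (gr T) := by
      intro T _
      rw [hY3]
      ring
    rw [Ex_congr p ε m _ _ hc, Ex_mul, Ex_C3, hV]
    field_simp
  have EU2 : Ex (V := V) p ε m U2 = ((1 + ε ^ 4) ^ m - 1) + κ := by
    have hc : ∀ T ⊆ E0 V, U2 T = Y4 T + ((κ - 4) * X2 T + 3) := by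
      intro T _
      rw [hU2]
      ring
    rw [Ex_congr p ε m _ _ hc, Ex_add p ε m Y4 (fun T => (κ - 4) * X2 T + 3),
      Ex_add p ε m (fun T => (κ - 4) * X2 T) (fun _ => 3), Ex_mul, EX2, Ex_const, EY4]
    ring
  have EYF : ∀ j, Ex (V := V) p ε m (YF j) ≤ (1 + 2 ^ #(EF (F j)) * ε ^ 4) ^ m := by
    intro j
    have hc : ∀ T ⊆ E0 V, YF j T
        = (1 / (n.descFactorial (Fintype.card (W j)) * p ^ #(EF (F j)))) * cnt (F j) (gr T) := by
      intro T _
      rw [hYF]
      ring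
    rw [Ex_congr p ε m _ _ hc, Ex_mul]
    have hle := Ex_cnt_le (V := V) p ε hp.le h0.le h1.le m (F j)
    rw [hV] at hle
    set D : ℝ := (n.descFactorial (Fintype.card (W j)) : ℝ) with hD
    have hD0 : 0 ≤ D := Nat.cast_nonneg _
    have hB : 0 ≤ (1 + 2 ^ #(EF (F j)) * ε ^ 4) ^ m := by positivity
    rcases hD0.eq_or_lt with hz | hz
    · rw [← hz]
      simpa using hB
    · calc 1 / (D * p ^ #(EF (F j))) * Ex (V := V) p ε m (fun T => cnt (F j) (gr T))
          ≤ 1 / (D * p ^ #(EF (F j))) * (D * p ^ #(EF (F j))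
            * (1 + 2 ^ #(EF (F j)) * ε ^ 4) ^ m) := by
            apply mul_le_mul_of_nonneg_left hle (by positivity)
        _ = _ := by
            field_simp
  -- pointwise nonnegativity
  have hU1nn : ∀ T ⊆ E0 V, 0 ≤ U1 T := fun T _ => sq_nonneg _
  have hU2nn : ∀ T ⊆ E0 V, 0 ≤ U2 T := by
    intro T hT
    have hlow := c4_lower (gr T)
    rw [hV] at hlow
    set h : ℝ := cnt (⊤ : SimpleGraph (Fin 2)) (gr T) with hh
    set c4 : ℝ := cnt (SimpleGraph.cycleGraph 4) (gr T) with hc4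
    have hX : X2 T = h / (n.descFactorial 2 * p) := rfl
    have hY : Y4 T = c4 / (n.descFactorial 4 * p ^ 4) := rfl
    have hX0 : 0 ≤ X2 T := by
      rw [hX]
      exact div_nonneg (cnt_nonneg _ _) (by positivity)
    have hhX : h = n * (n - 1) * p * X2 T := by
      rw [← hD2, hX]
      field_simp
    have hcY : c4 = n * (n - 1) * (n - 2) * (n - 3) * p ^ 4 * Y4 T := by
      rw [← hD4, hY]
      field_simp
    -- `Y4 + κ X2 ≥ X2 ^ 4`
    have hmain : X2 T ^ 4 ≤ Y4 T + κ * X2 T := by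
      set x := X2 T with hx
      set y := Y4 T with hy
      have hn0 : (0 : ℝ) < n := by linarith
      have e1 : n ^ 4 * ((n - 1) * p * x) ^ 4
          ≤ (n : ℝ) ^ 4 * (n * (n - 1) * (n - 2) * (n - 3) * p ^ 4 * y
            + 2 * n * (n * (n - 1) * p * x)) := by
        have e0 : h ^ 4 = (n : ℝ) ^ 4 * ((n - 1) * p * x) ^ 4 := by
          rw [hhX]
          ring
        rw [← e0, ← hcY, ← hhX]
        exact hlow
      have e2 : ((n - 1) * p * x) ^ 4
          ≤ n * (n - 1) * (n - 2) * (n - 3) * p ^ 4 * y + 2 * n * (n * (n - 1) * p * x) :=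
        le_of_mul_le_mul_left e1 (by positivity)
      have hkx : κ * x * (((n : ℝ) - 2) * (n - 3) * p ^ 3) = 2 * n * x := by
        rw [hκ]
        have h2 : (n : ℝ) - 2 ≠ 0 := by linarith
        have h3 : (n : ℝ) - 3 ≠ 0 := by linarith
        field_simp
      have e3 : n * (n - 1) * (n - 2) * (n - 3) * p ^ 4 * y + 2 * n * (n * (n - 1) * p * x)
          = n * (n - 1) * (n - 2) * (n - 3) * p ^ 4 * (y + κ * x) := by
        have : 2 * (n : ℝ) * (n * (n - 1) * p * x) = n * (n - 1) * p * (2 * n * x) := by ring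
        rw [this, ← hkx]
        ring
      rw [e3] at e2
      have e4 : n * (n - 1) * (n - 2) * (n - 3) * p ^ 4 * x ^ 4 ≤ ((n - 1) * p * x) ^ 4 := by
        have hpoly : (n : ℝ) * (n - 2) * (n - 3) ≤ (n - 1) ^ 3 := by nlinarith
        have hpos : 0 ≤ (n - 1) * (p * x) ^ 4 := by
          apply mul_nonneg (by linarith) (by positivity)
        calc n * (n - 1) * (n - 2) * (n - 3) * p ^ 4 * x ^ 4
            = ((n : ℝ) * (n - 2) * (n - 3)) * ((n - 1) * (p * x) ^ 4) := by ring
          _ ≤ (n - 1) ^ 3 * ((n - 1) * (p * x) ^ 4) := mul_le_mul_of_nonneg_right hpoly hpos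
          _ = _ := by ring
      have e5 := e4.trans e2
      have hpos : 0 < (n : ℝ) * (n - 1) * (n - 2) * (n - 3) * p ^ 4 := by
        rw [← hD4]
        positivity
      exact le_of_mul_le_mul_left e5 hpos
    have hbern : 4 * X2 T - 3 ≤ X2 T ^ 4 := by
      nlinarith [sq_nonneg (X2 T - 1), sq_nonneg (X2 T + 1), sq_nonneg (X2 T ^ 2 - 1),
        mul_nonneg (sq_nonneg (X2 T - 1)) (sq_nonneg (X2 T + 1))]
    have : U2 T = Y4 T + κ * X2 T - (4 * X2 T - 3) := by
      rw [hU2]
      ring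
    rw [this]
    linarith
  have hY3nn : ∀ T, 0 ≤ Y3 T := fun T => div_nonneg (cnt_nonneg _ _) (by positivity)
  have hYFnn : ∀ j T, 0 ≤ YF j T := fun j T => div_nonneg (cnt_nonneg _ _) (by positivity)
  -- the combined variable
  set A1 : ℝ := 1 / (n.choose 2 * p) with hA1
  set A2 : ℝ := ((1 + ε ^ 4) ^ m - 1) + κ with hA2
  set A3 : ℝ := (1 - ε ^ 3) ^ m with hA3
  set B : ℕ → ℝ := fun j => (1 + 2 ^ #(EF (F j)) * ε ^ 4) ^ m with hB
  have hA1pos : 0 < A1 := by positivity
  have hA2pos : 0 < A2 := by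
    have : 1 ≤ (1 + ε ^ 4) ^ m := one_le_pow₀ (by
      have : 0 ≤ ε ^ 4 := by positivity
      linarith)
    linarith
  have hA3pos : 0 < A3 := by
    apply pow_pos
    have : ε ^ 3 < 1 := pow_lt_one₀ h0.le h1 (by norm_num)
    linarith
  have hBpos : ∀ j, 0 < B j := fun j => by positivity
  set Z : Finset (Sym2 V) → ℝ := fun T => (1 / (5 * A1)) * U1 T + ((1 / (5 * A2)) * U2 T +
    ((1 / (5 * A3)) * Y3 T + ∑ j ∈ Finset.range J, (1 / (5 * 2 ^ (j + 1) * B j)) * YF j T)) with hZ
  have hEZ : Ex (V := V) p ε m Z ≤ 4 / 5 := by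
    rw [hZ, Ex_add p ε m (fun T => (1 / (5 * A1)) * U1 T), Ex_add p ε m (fun T => (1 / (5 * A2)) * U2 T),
      Ex_add p ε m (fun T => (1 / (5 * A3)) * Y3 T), Ex_mul, Ex_mul, Ex_mul, Ex_sum, EU2, EY3]
    have t1 : 1 / (5 * A1) * Ex (V := V) p ε m U1 ≤ 1 / 5 := by
      calc 1 / (5 * A1) * Ex (V := V) p ε m U1 ≤ 1 / (5 * A1) * A1 :=
            mul_le_mul_of_nonneg_left EU1 (by positivity)
        _ = 1 / 5 := by field_simp
    have t2 : 1 / (5 * A2) * A2 = 1 / 5 := by field_simp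
    have t3 : 1 / (5 * A3) * A3 = 1 / 5 := by field_simp
    have t4 : ∑ j ∈ Finset.range J, Ex (V := V) p ε m
        (fun T => 1 / (5 * 2 ^ (j + 1) * B j) * YF j T) ≤ 1 / 5 := by
      calc ∑ j ∈ Finset.range J, Ex (V := V) p ε m
            (fun T => 1 / (5 * 2 ^ (j + 1) * B j) * YF j T)
          ≤ ∑ j ∈ Finset.range J, (1 / 5) * ((1 / 2) * (1 / 2) ^ j) := by
            apply Finset.sum_le_sum
            intro j _
            rw [Ex_mul]
            calc 1 / (5 * 2 ^ (j + 1) * B j) * Ex (V := V) p ε m (YF j)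
                ≤ 1 / (5 * 2 ^ (j + 1) * B j) * B j :=
                  mul_le_mul_of_nonneg_left (EYF j) (by
                    have := hBpos j
                    positivity)
              _ = (1 / 5) * ((1 / 2) * (1 / 2) ^ j) := by
                  have := (hBpos j).ne'
                  rw [div_pow, one_pow, pow_succ]
                  field_simp
        _ = (1 / 5) * (1 - (1 / 2) ^ J) := by
            rw [← Finset.mul_sum, ← Finset.mul_sum, geom_sum_eq (by norm_num)]
            ring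
        _ ≤ 1 / 5 := by
            have : (0 : ℝ) ≤ (1 / 2) ^ J := by positivity
            linarith
    rw [t2, t3]
    linarith
  obtain ⟨T, hT, hTZ⟩ := exists_le_Ex (V := V) p ε hp.le h0.le h1.le hm Z
  have hZ1 : Z T ≤ 4 / 5 := hTZ.trans hEZ
  have n1 := hU1nn T hT
  have n2 := hU2nn T hT
  have n3 := hY3nn T
  have s1 : 0 ≤ (1 / (5 * A1)) * U1 T := by positivity
  have s2 : 0 ≤ (1 / (5 * A2)) * U2 T := by positivity
  have s3 : 0 ≤ (1 / (5 * A3)) * Y3 T := by positivity
  have s4 : ∀ j ∈ Finset.range J, 0 ≤ (1 / (5 * 2 ^ (j + 1) * B j)) * YF j T := by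
    intro j _
    have := hYFnn j T
    have := hBpos j
    positivity
  have s5 := Finset.sum_nonneg s4
  have hZT : Z T = (1 / (5 * A1)) * U1 T + ((1 / (5 * A2)) * U2 T +
    ((1 / (5 * A3)) * Y3 T + ∑ j ∈ Finset.range J, (1 / (5 * 2 ^ (j + 1) * B j)) * YF j T)) := rfl
  rw [hZT] at hZ1
  have conv : ∀ A x : ℝ, 0 < A → (1 / A) * x ≤ 1 → x ≤ A := by
    intro A x hA hx
    rw [one_div, inv_mul_le_iff₀ hA, mul_one] at hx
    exact hx
  refine ⟨gr T, ?_, ?_, ?_, ?_⟩
  · exact conv (5 * A1) (U1 T) (by positivity) (by linarith)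
  · have : U2 T ≤ 5 * A2 := conv (5 * A2) (U2 T) (by positivity) (by linarith)
    have habs : |U2 T| = U2 T := abs_of_nonneg n2
    rw [← habs] at this
    exact this
  · exact conv (5 * A3) (Y3 T) (by positivity) (by linarith)
  · intro j hj
    have hle := Finset.single_le_sum s4 (Finset.mem_range.2 hj)
    have hBj := hBpos j
    exact conv (5 * 2 ^ (j + 1) * B j) (YF j T) (by positivity) (by linarith)

end Pool.Agent.U466.TP
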