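import Pool.Agent.U466.TP4

set_option autoImplicit false

/-!
# Sparse graphs with the right number of four-cycles, bounded counts and few triangles
-/

namespace Pool.Agent.U466.TP

open Finset Filter Topology

/-- **Main construction.** Let `q n → 0` with `n * q n ^ 3 → ∞` and let `F 0, F 1, ...` be any
sequence of finite graphs. There are graphs `G n` on `n` vertices whose normalised numbers of
embeddings of edges and of four-cycles tend to `1`, whose normalised numbers of embeddings of every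
`F j` are bounded, and whose normalised numbers of triangles tend to `0`. -/
theorem seq_exists (q : ℕ → ℝ) (hq0 : ∀ n, 0 < q n) (hq : Tendsto q atTop (𝓝 0))
    (hq3 : Tendsto (fun n : ℕ => (n : ℝ) * q n ^ 3) atTop atTop)
    (W : ℕ → Type) [∀ j, Fintype (W j)] (F : ∀ j, SimpleGraph (W j)) :
    ∃ G : ∀ n : ℕ, SimpleGraph (Fin n),
      Tendsto (fun n : ℕ => cnt (⊤ : SimpleGraph (Fin 2)) (G n) / (n.descFactorial 2 * q n))
        atTop (𝓝 1) ∧
      Tendsto (fun n : ℕ => cnt (SimpleGraph.cycleGraph 4) (G n) / (n.descFactorial 4 * q n ^ 4))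
        atTop (𝓝 1) ∧
      Tendsto (fun n : ℕ => cnt (SimpleGraph.cycleGraph 3) (G n) / (n.descFactorial 3 * q n ^ 3))
        atTop (𝓝 0) ∧
      ∀ j, ∃ C : ℝ, ∀ n : ℕ,
        cnt (F j) (G n) / (n.descFactorial (Fintype.card (W j)) * q n ^ #(EF (F j))) ≤ C := by
  set L : ℕ → ℝ := fun n => Real.log (1 / q n) with hL
  have hLt : Tendsto L atTop atTop := by
    have h1 : Tendsto (fun n => 1 / q n) atTop atTop := by
      have : Tendsto q atTop (𝓝[>] 0) :=
        tendsto_nhdsWithin_iff.2 ⟨hq, Eventually.of_forall fun n => hq0 n⟩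
      simp only [one_div]
      exact this.inv_tendsto_nhdsGT_zero
    exact Real.tendsto_log_atTop.comp h1
  set ε : ℕ → ℝ := fun n => L n ^ (-(2 / 5) : ℝ) with hε
  set m : ℕ → ℕ := fun n => ⌊L n ^ (7 / 5 : ℝ)⌋₊ with hm
  -- basic estimates
  have hεpos : ∀ n, 1 < L n → 0 < ε n := fun n hn => Real.rpow_pos_of_pos (by linarith) _
  have hε1 : ∀ n, 1 < L n → ε n < 1 := fun n hn => Real.rpow_lt_one_of_one_lt_of_neg hn (by norm_num)
  have hmle : ∀ n, 1 < L n → (m n : ℝ) ≤ L n ^ (7 / 5 : ℝ) := fun n hn =>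
    Nat.floor_le (Real.rpow_nonneg (by linarith) _)
  have hmge : ∀ n, 1 < L n → L n ^ (7 / 5 : ℝ) - 1 ≤ (m n : ℝ) := fun n hn =>
    (Nat.sub_one_lt_floor _).le
  have hεm : ∀ n, 1 < L n → ε n * m n ≤ L n := by
    intro n hn
    have h0 : 0 < L n := by linarith
    calc ε n * m n ≤ ε n * L n ^ (7 / 5 : ℝ) :=
          mul_le_mul_of_nonneg_left (hmle n hn) (hεpos n hn).le
      _ = L n := by
          rw [hε]
          simp only
          rw [← Real.rpow_add h0]
          norm_num
  have hε4 : ∀ n, 1 < L n → ε n ^ 4 = L n ^ (-(8 / 5) : ℝ) := by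
    intro n hn
    have h0 : 0 < L n := by linarith
    rw [hε]
    simp only
    rw [← Real.rpow_natCast, ← Real.rpow_mul h0.le]
    norm_num
  have hε3 : ∀ n, 1 < L n → ε n ^ 3 = L n ^ (-(6 / 5) : ℝ) := by
    intro n hn
    have h0 : 0 < L n := by linarith
    rw [hε]
    simp only
    rw [← Real.rpow_natCast, ← Real.rpow_mul h0.le]
    norm_num
  have hε4m : ∀ n, 1 < L n → ε n ^ 4 * m n ≤ L n ^ (-(1 / 5) : ℝ) := by
    intro n hn
    have h0 : 0 < L n := by linarith
    calc ε n ^ 4 * m n ≤ ε n ^ 4 * L n ^ (7 / 5 : ℝ) :=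
          mul_le_mul_of_nonneg_left (hmle n hn) (pow_nonneg (hεpos n hn).le 4)
      _ = L n ^ (-(1 / 5) : ℝ) := by
          rw [hε4 n hn, ← Real.rpow_add h0]
          norm_num
  have hε3m : ∀ n, 1 < L n → L n ^ (1 / 5 : ℝ) - 1 ≤ ε n ^ 3 * m n := by
    intro n hn
    have h0 : 0 < L n := by linarith
    have h3 : ε n ^ 3 ≤ 1 := pow_le_one₀ (hεpos n hn).le (hε1 n hn).le
    calc L n ^ (1 / 5 : ℝ) - 1 ≤ ε n ^ 3 * (L n ^ (7 / 5 : ℝ) - 1) := by
          rw [mul_sub, mul_one, hε3 n hn, ← Real.rpow_add h0]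
          rw [hε3 n hn] at h3
          norm_num at h3 ⊢
          linarith
      _ ≤ ε n ^ 3 * m n := mul_le_mul_of_nonneg_left (hmge n hn) (pow_nonneg (hεpos n hn).le 3)
  have hqm : ∀ n, 1 < L n → q n * (1 + ε n) ^ m n ≤ 1 := by
    intro n hn
    have h1 : (1 + ε n) ^ m n ≤ 1 / q n := by
      calc (1 + ε n) ^ m n ≤ (Real.exp (ε n)) ^ m n := by
            apply pow_le_pow_left₀
            · have := hεpos n hn
              linarith
            · have := Real.add_one_le_exp (ε n)
              linarith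
        _ = Real.exp (ε n * m n) := by
            rw [← Real.exp_nat_mul]
            congr 1
            ring
        _ ≤ Real.exp (L n) := Real.exp_le_exp.2 (hεm n hn)
        _ = 1 / q n := by
            rw [hL]
            exact Real.exp_log (by
              have := hq0 n
              positivity)
    calc q n * (1 + ε n) ^ m n ≤ q n * (1 / q n) := mul_le_mul_of_nonneg_left h1 (hq0 n).le
      _ = 1 := by
          have := (hq0 n).ne'
          field_simp
  have hpow : ∀ n, 1 < L n → ∀ c : ℝ, 0 ≤ c →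
      (1 + c * ε n ^ 4) ^ m n ≤ Real.exp (c * L n ^ (-(1 / 5) : ℝ)) := by
    intro n hn c hc
    have h4 : 0 ≤ ε n ^ 4 := pow_nonneg (hεpos n hn).le 4
    calc (1 + c * ε n ^ 4) ^ m n ≤ (Real.exp (c * ε n ^ 4)) ^ m n := by
          apply pow_le_pow_left₀
          · positivity
          · have := Real.add_one_le_exp (c * ε n ^ 4)
            linarith
      _ = Real.exp (c * (ε n ^ 4 * m n)) := by
          rw [← Real.exp_nat_mul]
          congr 1
          ring
      _ ≤ Real.exp (c * L n ^ (-(1 / 5) : ℝ)) :=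
          Real.exp_le_exp.2 (mul_le_mul_of_nonneg_left (hε4m n hn) hc)
  -- the graphs
  have hex : ∀ n : ℕ, ∃ G : SimpleGraph (Fin n), (4 ≤ n ∧ 1 < L n) →
      ((cnt (⊤ : SimpleGraph (Fin 2)) G / (n.descFactorial 2 * q n) - 1) ^ 2
        ≤ 5 * (1 / (n.choose 2 * q n)) ∧
      |cnt (SimpleGraph.cycleGraph 4) G / (n.descFactorial 4 * q n ^ 4)
          - (4 * (cnt (⊤ : SimpleGraph (Fin 2)) G / (n.descFactorial 2 * q n)) - 3)
          + (2 * n / (((n : ℝ) - 2) * (n - 3) * q n ^ 3))
            * (cnt (⊤ : SimpleGraph (Fin 2)) G / (n.descFactorial 2 * q n))|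
        ≤ 5 * (((1 + ε n ^ 4) ^ m n - 1) + 2 * n / (((n : ℝ) - 2) * (n - 3) * q n ^ 3)) ∧
      cnt (SimpleGraph.cycleGraph 3) G / (n.descFactorial 3 * q n ^ 3)
        ≤ 5 * (1 - ε n ^ 3) ^ m n ∧
      ∀ j < n, cnt (F j) G / (n.descFactorial (Fintype.card (W j)) * q n ^ #(EF (F j)))
        ≤ 5 * 2 ^ (j + 1) * (1 + 2 ^ #(EF (F j)) * ε n ^ 4) ^ m n) := by
    intro n
    by_cases h : 4 ≤ n ∧ 1 < L n
    · obtain ⟨G, hG⟩ := exists_good (V := Fin n) n h.1 (Fintype.card_fin n) (q n) (ε n) (m n)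
        (hq0 n) (hεpos n h.2) (hε1 n h.2) (hqm n h.2) W F n
      exact ⟨G, fun _ => hG⟩
    · exact ⟨⊥, fun h' => absurd h' h⟩
  choose G hG using hex
  have hev : ∀ᶠ n in atTop, 4 ≤ n ∧ 1 < L n :=
    (eventually_ge_atTop 4).and (hLt.eventually_gt_atTop 1)
  -- limits of the error terms
  have hq1 : ∀ᶠ n in atTop, q n ≤ 1 := hq.eventually (ge_mem_nhds (by norm_num))
  have lim1 : Tendsto (fun n : ℕ => 5 * (1 / (n.choose 2 * q n))) atTop (𝓝 0) := by
    have h1 : Tendsto (fun n : ℕ => (n.choose 2 : ℝ) * q n) atTop atTop := by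
      apply tendsto_atTop_mono' _ _ (hq3.atTop_div_const (show (0 : ℝ) < 2 by norm_num))
      filter_upwards [eventually_ge_atTop 4, hq1] with n hn hqn
      have hn' : (4 : ℝ) ≤ n := by exact_mod_cast hn
      have hqp := hq0 n
      rw [Nat.cast_choose_two]
      have h3 : q n ^ 3 ≤ q n := by
        calc q n ^ 3 = q n * (q n * q n) := by ring
          _ ≤ q n * (1 * 1) := by gcongr
          _ = q n := by ring
      have h4 : (n : ℝ) * q n ^ 3 ≤ n * q n := mul_le_mul_of_nonneg_left h3 (by linarith)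
      have h5 : (n : ℝ) * q n ≤ n * (n - 1) * q n := by
        have : 0 < (n : ℝ) * q n := by positivity
        nlinarith
      linarith
    have h2 : Tendsto (fun n : ℕ => 1 / ((n.choose 2 : ℝ) * q n)) atTop (𝓝 0) := by
      simp only [one_div]
      exact h1.inv_tendsto_atTop
    simpa using h2.const_mul 5
  have limk : Tendsto (fun n : ℕ => 2 * (n : ℝ) / (((n : ℝ) - 2) * (n - 3) * q n ^ 3))
      atTop (𝓝 0) := by
    have h2 : Tendsto (fun n : ℕ => 12 * (1 / ((n : ℝ) * q n ^ 3))) atTop (𝓝 0) := by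
      have : Tendsto (fun n : ℕ => 1 / ((n : ℝ) * q n ^ 3)) atTop (𝓝 0) := by
        simp only [one_div]
        exact hq3.inv_tendsto_atTop
      simpa using this.const_mul 12
    refine tendsto_of_tendsto_of_tendsto_of_le_of_le' tendsto_const_nhds h2 ?_ ?_
    · filter_upwards [eventually_ge_atTop 6] with n hn
      have hn' : (6 : ℝ) ≤ n := by exact_mod_cast hn
      have hqp := hq0 n
      apply div_nonneg (by linarith)
      apply mul_nonneg
      · apply mul_nonneg <;> linarith
      · positivity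
    · filter_upwards [eventually_ge_atTop 6] with n hn
      have hn' : (6 : ℝ) ≤ n := by exact_mod_cast hn
      have hqp : 0 < q n ^ 3 := pow_pos (hq0 n) 3
      have hnpos : (0 : ℝ) < n := by linarith
      have h1 : (n : ℝ) ^ 2 / 6 ≤ (n - 2) * (n - 3) := by nlinarith
      have h3 : (n : ℝ) ^ 2 / 6 * q n ^ 3 ≤ ((n : ℝ) - 2) * (n - 3) * q n ^ 3 :=
        mul_le_mul_of_nonneg_right h1 hqp.le
      calc 2 * (n : ℝ) / (((n : ℝ) - 2) * (n - 3) * q n ^ 3)
          ≤ 2 * (n : ℝ) / ((n : ℝ) ^ 2 / 6 * q n ^ 3) := by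
            apply div_le_div_of_nonneg_left (by positivity) (by positivity) h3
        _ = 12 * (1 / ((n : ℝ) * q n ^ 3)) := by
            field_simp
            norm_num
  have limneg : Tendsto (fun n : ℕ => L n ^ (-(1 / 5) : ℝ)) atTop (𝓝 0) :=
    (tendsto_rpow_neg_atTop (show (0 : ℝ) < 1 / 5 by norm_num)).comp hLt
  have lim4 : Tendsto (fun n : ℕ => (1 + ε n ^ 4) ^ m n) atTop (𝓝 1) := by
    have h2 : Tendsto (fun n : ℕ => Real.exp (1 * L n ^ (-(1 / 5) : ℝ))) atTop (𝓝 1) := by
      have := (Real.continuous_exp.tendsto 0).comp (by simpa using limneg.const_mul 1)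
      simpa [Function.comp_def] using this
    refine tendsto_of_tendsto_of_tendsto_of_le_of_le' tendsto_const_nhds h2 ?_ ?_
    · filter_upwards [hev] with n hn
      apply one_le_pow₀
      have := pow_pos (hεpos n hn.2) 4
      linarith
    · filter_upwards [hev] with n hn
      have := hpow n hn.2 1 (by norm_num)
      simpa using this
  have lim3 : Tendsto (fun n : ℕ => 5 * (1 - ε n ^ 3) ^ m n) atTop (𝓝 0) := by
    have h2 : Tendsto (fun n : ℕ => 5 * Real.exp (-(L n ^ (1 / 5 : ℝ) - 1))) atTop (𝓝 0) := by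
      have h3 : Tendsto (fun n : ℕ => L n ^ (1 / 5 : ℝ) - 1) atTop atTop :=
        tendsto_atTop_add_const_right _ _
          ((tendsto_rpow_atTop (show (0 : ℝ) < 1 / 5 by norm_num)).comp hLt)
      have h4 := (Real.tendsto_exp_neg_atTop_nhds_zero.comp h3).const_mul 5
      simpa [Function.comp_def] using h4
    refine tendsto_of_tendsto_of_tendsto_of_le_of_le' tendsto_const_nhds h2 ?_ ?_
    · filter_upwards [hev] with n hn
      have : ε n ^ 3 ≤ 1 := pow_le_one₀ (hεpos n hn.2).le (hε1 n hn.2).le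
      apply mul_nonneg (by norm_num)
      apply pow_nonneg
      linarith
    · filter_upwards [hev] with n hn
      apply mul_le_mul_of_nonneg_left _ (by norm_num)
      have h3 : ε n ^ 3 ≤ 1 := pow_le_one₀ (hεpos n hn.2).le (hε1 n hn.2).le
      calc (1 - ε n ^ 3) ^ m n ≤ (Real.exp (-ε n ^ 3)) ^ m n := by
            apply pow_le_pow_left₀ (by linarith)
            have := Real.add_one_le_exp (-ε n ^ 3)
            linarith
        _ = Real.exp (-(ε n ^ 3 * m n)) := by
            rw [← Real.exp_nat_mul]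
            congr 1
            ring
        _ ≤ Real.exp (-(L n ^ (1 / 5 : ℝ) - 1)) := by
            apply Real.exp_le_exp.2
            have := hε3m n hn.2
            linarith
  -- the edge count
  have T2 : Tendsto (fun n : ℕ => cnt (⊤ : SimpleGraph (Fin 2)) (G n) / (n.descFactorial 2 * q n))
      atTop (𝓝 1) := by
    have h1 : Tendsto (fun n : ℕ =>
        (cnt (⊤ : SimpleGraph (Fin 2)) (G n) / (n.descFactorial 2 * q n) - 1) ^ 2)
        atTop (𝓝 0) := by
      refine tendsto_of_tendsto_of_tendsto_of_le_of_le' tendsto_const_nhds lim1 ?_ ?_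
      · exact Eventually.of_forall fun n => sq_nonneg _
      · filter_upwards [hev] with n hn
        exact (hG n hn).1
    have h2 : Tendsto (fun n : ℕ =>
        |cnt (⊤ : SimpleGraph (Fin 2)) (G n) / (n.descFactorial 2 * q n) - 1|)
        atTop (𝓝 0) := by
      have := h1.sqrt
      simpa [Real.sqrt_sq_eq_abs] using this
    have h3 := (tendsto_zero_iff_abs_tendsto_zero _).2 h2
    have h4 := h3.add_const 1
    simpa using h4
  have T4 : Tendsto (fun n : ℕ =>
      cnt (SimpleGraph.cycleGraph 4) (G n) / (n.descFactorial 4 * q n ^ 4)) atTop (𝓝 1) := by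
    set X : ℕ → ℝ :=
      fun n => cnt (⊤ : SimpleGraph (Fin 2)) (G n) / (n.descFactorial 2 * q n) with hX
    set K : ℕ → ℝ := fun n => 2 * (n : ℝ) / (((n : ℝ) - 2) * (n - 3) * q n ^ 3) with hK
    set Y : ℕ → ℝ := fun n =>
      cnt (SimpleGraph.cycleGraph 4) (G n) / (n.descFactorial 4 * q n ^ 4) with hY
    have h1 : Tendsto (fun n => |Y n - (4 * X n - 3) + K n * X n|) atTop (𝓝 0) := by
      have h2 : Tendsto (fun n => 5 * (((1 + ε n ^ 4) ^ m n - 1) + K n)) atTop (𝓝 0) := by
        have := ((lim4.sub_const 1).add limk).const_mul 5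
        simpa using this
      refine tendsto_of_tendsto_of_tendsto_of_le_of_le' tendsto_const_nhds h2 ?_ ?_
      · exact Eventually.of_forall fun n => abs_nonneg _
      · filter_upwards [hev] with n hn
        exact (hG n hn).2.1
    have h3 := (tendsto_zero_iff_abs_tendsto_zero _).2 h1
    have h4 : Tendsto (fun n => (4 * X n - 3) - K n * X n) atTop (𝓝 ((4 * 1 - 3) - 0 * 1)) :=
      ((T2.const_mul 4).sub_const 3).sub (limk.mul T2)
    have h5 := h3.add h4
    have h6 : (0 : ℝ) + ((4 * 1 - 3) - 0 * 1) = 1 := by norm_num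
    rw [h6] at h5
    refine h5.congr ?_
    intro n
    ring
  refine ⟨G, T2, T4, ?_, ?_⟩
  · refine tendsto_of_tendsto_of_tendsto_of_le_of_le' tendsto_const_nhds lim3 ?_ ?_
    · refine Eventually.of_forall fun n => div_nonneg (cnt_nonneg _ _) ?_
      have := hq0 n
      positivity
    · filter_upwards [hev] with n hn
      exact (hG n hn).2.2.1
  · intro j
    obtain ⟨N, hN⟩ := eventually_atTop.1 hev
    set a : ℕ → ℝ := fun n =>
      cnt (F j) (G n) / (n.descFactorial (Fintype.card (W j)) * q n ^ #(EF (F j))) with ha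
    have ha0 : ∀ n, 0 ≤ a n := by
      intro n
      apply div_nonneg (cnt_nonneg _ _)
      have := hq0 n
      positivity
    set C0 : ℝ := 5 * 2 ^ (j + 1) * Real.exp (2 ^ #(EF (F j))) with hC0
    have hC0pos : 0 ≤ C0 := by positivity
    have hlarge : ∀ n, max N (j + 1) ≤ n → a n ≤ C0 := by
      intro n hn
      have hn1 : N ≤ n := (le_max_left _ _).trans hn
      have hn2 : j < n := (le_max_right _ _).trans hn
      have hc := hN n hn1
      have h1 := (hG n hc).2.2.2 j hn2
      refine h1.trans ?_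
      apply mul_le_mul_of_nonneg_left _ (by positivity)
      refine (hpow n hc.2 (2 ^ #(EF (F j))) (by positivity)).trans ?_
      apply Real.exp_le_exp.2
      have h2 : L n ^ (-(1 / 5) : ℝ) ≤ 1 := Real.rpow_le_one_of_one_le_of_nonpos hc.2.le (by norm_num)
      calc (2 : ℝ) ^ #(EF (F j)) * L n ^ (-(1 / 5) : ℝ) ≤ 2 ^ #(EF (F j)) * 1 :=
            mul_le_mul_of_nonneg_left h2 (by positivity)
        _ = 2 ^ #(EF (F j)) := mul_one _
    refine ⟨C0 + ∑ k ∈ Finset.range (max N (j + 1)), a k, ?_⟩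
    intro n
    change a n ≤ _
    rcases Nat.lt_or_ge n (max N (j + 1)) with hlt | hge
    · have := Finset.single_le_sum (fun k _ => ha0 k) (Finset.mem_range.2 hlt)
      linarith
    · have h1 := hlarge n hge
      have h2 : 0 ≤ ∑ k ∈ Finset.range (max N (j + 1)), a k := Finset.sum_nonneg fun k _ => ha0 k
      linarith

end Pool.Agent.U466.TP
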